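import Pool.Agent.Lib.DU.CV.Bas

/-!
# Theorem DU, part CV, module Lw: levels exist, `S_Lw` (author helper28, port of helper97)
-/

set_option autoImplicit false

open scoped Pointwise nonZeroDivisors

noncomputable section

namespace Pool.Agent.DM.DU

open Pool.Agent.MuZ Pool.Agent.FW NumberField IsDedekindDomain
open Pool.Agent.DN

variable {n t : ℕ}

theorem Lw_prod [SqN n t] {R : Finset (Ideal (OO n t))} (h : ∀ b ∈ R, (NI b).Coprime 3) :
    (∏ b ∈ R, NI b).Coprime 3 := Nat.Coprime.prod_left h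

theorem Lw_cop [Ram3 n t] {f : ℕ} {m : Ideal (OO n t)} {R : Finset (Ideal (OO n t))} (hm : FM f m)
    (hR : FR f R) : (lev f m R).Coprime 3 := by
  obtain ⟨-, -, -, -, -, -, -, hm3, -⟩ := w_fm hm
  unfold lev
  have h1 : (Dk n t / 3).Coprime 3 := by
    obtain ⟨D', hD, hc⟩ := D3 (n := n) (t := t)
    rwa [hD, Nat.mul_div_cancel_left _ (by norm_num : 0 < 3)]
  refine Nat.Coprime.mul_left (Nat.Coprime.mul_left h1 (Nat.Coprime.pow_left 2 hm.cop))
    (Nat.Coprime.pow_left 3 (Nat.Coprime.mul_left hm3 (Lw_prod fun b hb => ?_)))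
  exact (CV_NI_cop (by norm_num)).1 (CV_pri_dvd (hR b hb).prm (Dvd.intro _ rfl))

theorem Lw_pos [SqN n t] {f : ℕ} {m : Ideal (OO n t)} {R : Finset (Ideal (OO n t))} (hD : 0 < Dk n t / 3)
    (hm : FM f m) (hR : FR f R) : 0 < lev f m R := by
  unfold lev
  exact Nat.mul_pos (Nat.mul_pos hD (pow_pos hm.pos 2)) (pow_pos (Nat.mul_pos (CV_NI_ne hm.ne)
    (Finset.prod_pos fun b hb => CV_NI_ne (hR b hb).ne)) 3)

/-- **`S_Lw`.** -/
theorem sLw : S_Lw := by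
  intro n t _ f m R hm hR
  have hf0 := hm.pos
  obtain ⟨R2, hR2⟩ := (aO7 n t (3 * f) (by omega)).2.2.2.2.2.2.2.2.2.2
  have hFR2 : FR f R2 := fun b hb => ⟨(hR2.mem b hb).1, (hR2.mem b hb).2⟩
  have hD : 0 < Dk n t / 3 := by
    obtain ⟨D', hD, hc⟩ := D3 (n := n) (t := t)
    rw [hD, Nat.mul_div_cancel_left _ (by norm_num : 0 < 3)]
    rcases Nat.eq_zero_or_pos D' with h0 | h0
    · rw [h0] at hc
      norm_num at hc
    · exact h0
  obtain ⟨L, hL⟩ : ∃ L : ℕ, L = lev f m R * lev f m R2 := ⟨_, rfl⟩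
  have hc : L.Coprime 3 := hL ▸ Nat.Coprime.mul_left (Lw_cop hm hR) (Lw_cop hm hFR2)
  have hp : 0 < L := hL ▸ Nat.mul_pos (Lw_pos hD hm hR) (Lw_pos hD hm hFR2)
  have h1 : L ^ 2 % 3 = 1 := by
    have h2 : L % 3 = 1 ∨ L % 3 = 2 := by
      have h3 : ¬ 3 ∣ L := (Nat.Prime.coprime_iff_not_dvd Nat.prime_three).1 hc.symm
      omega
    rcases h2 with h2 | h2 <;> simp [Nat.pow_mod, h2]
  refine ⟨L ^ 2, ⟨pow_pos hp 2, h1, dvd_trans (Dvd.intro _ hL.symm) (dvd_pow_self L (by norm_num))⟩,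
    R2, hFR2, hR2, pow_pos hp 2, h1, dvd_trans (Dvd.intro_left _ hL.symm) (dvd_pow_self L (by norm_num))⟩

end Pool.Agent.DM.DU
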