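import Pool.Agent.Lib.DU.CV.C8
import Pool.Agent.Lib.DU.CV.C10
import Pool.Agent.Lib.DU.CV.Lw
import Pool.Agent.Lib.DM.B.All

/-!
# Theorem DU, part CV: all modules (author helper28)

`sC8 : S_C8`, `sC10 : S_C10`, `sLw : S_Lw`. Here: the versions without the hypotheses of part B.
-/

set_option autoImplicit false

noncomputable section

namespace Pool.Agent.DM.DU

open Pool.Agent.DN

/-- `S_C10`. -/
theorem tC10 (hKp : S_Kp) (hT0 : S_T0) (hT1 : S_T1) (hT2 : S_T2) (hC4 : S_C4) (hC6 : S_C6) (hD9 : S_D9)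
    (hE6 : DS.S_E6) (hE10 : DM.S_E10) : S_C10 :=
  sC10 hKp hT0 hT1 hT2 DM.aB7 hC4 hC6 hD9 hE6 hE10

end Pool.Agent.DM.DU
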