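import Pool.Agent.Lib.DU.CV.V3

/-!
# Theorem DU, part CV, module V4: the hidden symmetries modulo `P`, `S_V` (author helper97)
-/

set_option autoImplicit false

open scoped Pointwise nonZeroDivisors

noncomputable section

namespace Pool.Agent.DM.DU

open Pool.Agent.MuZ Pool.Agent.FW NumberField IsDedekindDomain
open Pool.Agent.DI (io ofC io_inj exists_io io_ofC ofC_io VP MP UP TP ex)
open Pool.Agent.DN
open Pool.Agent.DR (cz cadd cadd1 cneg cmob Udir)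

variable {n t : ℕ}

theorem zU_mp {P : Ideal ZZ} (hP : Ab3 P) (s : ℤ) (N : ℕ) : VP P (zU s N) ∧ MP P (zU s N - 1) ∧
    MP P ((1 - zU s N) / (zet 3 - 1) - s * (N : Om)) := by
  have hPp := hP.1.1
  obtain ⟨h1, h2⟩ := zet3_zpow hP (-(s * N))
  refine ⟨h1.1, h2, ?_⟩
  have h3 := zet3_div hP (-(s * N))
  have e : (1 - zU s N) / (zet 3 - 1) - s * (N : Om) =
      -((zet 3 ^ (-(s * (N : ℤ))) - 1) / (zet 3 - 1) - ((-(s * (N : ℤ)) : ℤ) : Om)) := by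
    unfold zU
    push_cast
    ring
  rw [e]
  exact h3.neg

variable [Ram3 n t] {P : Ideal ZZ} {f M k : ℕ} {m : Ideal (OO n t)} {R : Finset (Ideal (OO n t))}
  {χ : Ideal (OO n t) → Om}

theorem Us {M : ℕ} (hM : 2 ≤ M) (s : ℤ) {r : ℚ} (hr : r.den.Coprime M) : (r / (s * M * r + 1)).den.Coprime M := by
  have hG : G0 M 1 0 (s * M : ℤ) 1 := ⟨by ring, ⟨s, by ring⟩⟩
  obtain ⟨-, -, -, h1⟩ := CV_mob hM hG hr
  push_cast at h1
  rwa [one_mul, add_zero] at h1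

/-- **`k = 1`.** -/
theorem VH.U1 (h : VH P f M 1 m R χ) {s : ℤ} (hs : s = 1 ∨ s = -1) {r : ℚ} (hr : r.den.Coprime M) :
    MP P (xw f 1 m R χ (r / (s * M * r + 1)) - xw f 1 m R χ r) := by
  have hPp := h.hP.1.1
  rw [xw_eq, xw_eq, ← Finset.sum_sub_distrib]
  refine DI.MP.sum _ _ fun b hb => ?_
  have hbF := h.hR b hb
  have h1 := (h.C9 n t f M m b h.hm hbF (w_lv h.hM.lv hb) s hs).2.1 r hr
  obtain ⟨-, hz, -⟩ := zU_mp h.hP s (NI (m * b))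
  have e : Fb f 1 m χ (r / (s * M * r + 1)) b - Fb f 1 m χ r b =
      (zU s (NI (m * b)) - 1) * (Fb f 1 m χ r b - Fb f 1 m χ 0 b) := by
    unfold Fb
    linear_combination (χ b * rO ⊤ b * (w4 ^ 1 / 3)) * h1
  rw [e]
  exact DI.MP.mul_right hz ((h.vp hr hbF).sub (h.vp (cz M) hbF))

/-- **`k = 2`.** -/
theorem VH.U2 (h : VH P f M 2 m R χ) : ∃ la : Om, VP P la ∧ ∀ s : ℤ, (s = 1 ∨ s = -1) →
    ∀ r : ℚ, r.den.Coprime M →
    MP P (xw f 2 m R χ (r / (s * M * r + 1)) - xw f 2 m R χ r -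
      s * la * (xw f 2 m R (tw 1 χ) (r / 3) - xw f 2 m R (tw 1 χ) 0)) := by
  have hPp := h.hP.1.1
  have hM2 := h.M2
  have hM3 := h.M3
  have hf0 := h.hm.pos
  have hok := h.hm.toFok
  have hf2 : 2 ≤ f := by
    have h1 := (w_fok hok).1
    omega
  obtain ⟨π, hπ, hsum⟩ := h.pr
  obtain ⟨b1, hb1R, -⟩ := h.hRC.ex ⊤ (w_fb_top (n := n) (t := t) f).ne (CV_top _)
  obtain ⟨b10, hb10⟩ : ∃ b10, b10 = π b1 := ⟨_, rfl⟩
  obtain ⟨hb10R, hray1⟩ := hπ b1 hb1R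
  rw [← hb10] at hb10R hray1
  have hb1 := h.hR b1 hb1R
  have hb10F := h.hR b10 hb10R
  obtain ⟨α1, a1, a2, a3, a4, -⟩ := pp_al hf2 hb1 hb10F hray1
  obtain ⟨l0, hl0⟩ : ∃ l0 : Om, l0 = χ b1 * (χ b10)⁻¹ * (toO (cjO α1) / (zet 3 - 1))⁻¹ * ((NI b10 : ℕ) : Om) :=
    ⟨_, rfl⟩
  have hl0v : VP P l0 := by
    have h1 := (h.co hb1 hb10F hb1 hb10F a1 a2 a1 a2 a4 a3).2.1
    rwa [← hl0] at h1
  have hi : ∀ j : ℤ, VP P (j : Om) := fun j => DI.VP.int j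
  have hnv : ∀ j : ℕ, VP P (j : Om) := fun j => DI.VP.nat j
  refine ⟨((NI m : ℕ) : Om) * l0, (hnv _).mul hl0v, fun s hs r hr => ?_⟩
  rw [xw_eq, xw_eq, xw_eq, xw_eq, ← hsum (Fb f 2 m (tw 1 χ) (r / 3)), ← hsum (Fb f 2 m (tw 1 χ) 0),
    ← Finset.sum_sub_distrib, ← Finset.sum_sub_distrib, Finset.mul_sum, ← Finset.sum_sub_distrib]
  refine DI.MP.sum _ _ fun b hb => ?_
  obtain ⟨hb0R, hray⟩ := hπ b hb
  obtain ⟨b0, hb0e⟩ : ∃ b0, b0 = π b := ⟨_, rfl⟩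
  rw [← hb0e] at hb0R hray ⊢
  have hbF := h.hR b hb
  have hb0F := h.hR b0 hb0R
  obtain ⟨α, c1, c2, c3', c4, c5⟩ := pp_al hf2 hbF hb0F hray
  obtain ⟨hθv, -, hco⟩ := h.co hbF hb0F hb1 hb10F c1 c2 a1 a2 a4 a3
  rw [← hl0] at hco
  have h9 := (h.C9 n t f M m b h.hm hbF (w_lv h.hM.lv hb) s hs).2.2 b0 α _ c5 (w_lv h.hM.lv hb0R) r hr
  rw [toO_nat] at h9
  have hr3 := c3 hM3 hM2 hr
  have hUr3 := Us hM2 s hr3
  obtain ⟨hzv, hz1, hz2⟩ := zU_mp h.hP s (NI (m * b))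
  obtain ⟨hzv0, hz10, hz20⟩ := zU_mp h.hP s (NI (m * b0))
  -- the framings
  have hbG := v_G30 hok hbF
  have hb0G := v_G30 hok hb0F
  have hfr : rO ⊤ b * rO b b0 = rO ⊤ b0 := by
    obtain ⟨k1, k2, k3⟩ := v_rO h.R1 v_G30_top hbG
    obtain ⟨k4, -, k6⟩ := v_rO h.R1 v_G30_top hb0G
    obtain ⟨k7, -, -⟩ := v_rO h.R1 hbG hb0G
    apply io_inj
    rw [map_mul, k1, k4, k7]
    field_simp
  -- nonvanishing
  have hz0 : zet 3 - 1 ≠ 0 := sub_ne_zero.2 zet3_ne1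
  have hsu : UP P (s : Om) := by
    rcases hs with rfl | rfl
    · rw [Int.cast_one]
      exact DI.UP.one
    · rw [Int.cast_neg, Int.cast_one]
      exact DI.UP.one.neg
  have hNu : ∀ {c : Ideal (OO n t)}, c ≠ ⊥ → PrI c (3 * f) → UP P ((NI c : ℕ) : Om) := by
    intro c hc hc'
    exact w_upN hPp h.hP.2 ((CV_NI_cop (by norm_num)).1 (CV_pri_dvd hc' (Dvd.intro _ rfl)))
  have hmb0 : UP P ((1 - zU s (NI (m * b0))) / (zet 3 - 1)) := by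
    refine DI.UP.congr (hsu.mul (hNu (mul_ne_zero h.hm.ne hb0F.ne) (CV_pri_mul h.hm.prm hb0F.prm))) hz20
  have hN0u := hNu hb0F.ne hb0F.prm
  have hN00 := hN0u.ne_zero
  have hmb00 : 1 - zU s (NI (m * b0)) ≠ 0 := by
    have h1 := hmb0.ne_zero
    intro h2
    rw [h2, zero_div] at h1
    exact h1 rfl
  obtain ⟨z, hz⟩ : ∃ z, z = zU s (NI (m * b)) := ⟨_, rfl⟩
  obtain ⟨z0, hz0'⟩ : ∃ z0, z0 = zU s (NI (m * b0)) := ⟨_, rfl⟩
  rw [← hz] at h9 hzv hz1 hz2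
  rw [← hz0'] at h9 hzv0 hz10 hz20 hmb0 hmb00
  -- the values
  have v1 := h.E_vp hr hbF
  have v2 := h.E_vp (cz M) hbF
  have v3 := h.E_vp hr3 hb0F
  have v4 := h.E_vp (cz M) hb0F
  have v5 := h.E_vp hUr3 hb0F
  have hχb := v_up h.hχ hPp hbF
  have hrt := (h.rOtop hbF).1
  have hrt0 := (h.rOtop hb0F).1
  have hα := (pp_mp h.T0 h.hP c3').2
  -- the decomposition
  have key : Fb f 2 m χ (r / (s * M * r + 1)) b - Fb f 2 m χ r b -
      s * (((NI m : ℕ) : Om) * l0) * (Fb f 2 m (tw 1 χ) (r / 3) b0 - Fb f 2 m (tw 1 χ) 0 b0) =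
      (z - 1) * (χ b * rO ⊤ b * (w4 ^ 2 / 3 * etE f 2 m b r - w4 ^ 2 / 3 * etE f 2 m b 0)) +
      toO α * (χ b * rO ⊤ b0 * ((NI b0 : ℕ) : Om)⁻¹ * (((1 - z) / (zet 3 - 1)) * ((1 - z0) / (zet 3 - 1))⁻¹) *
        (w4 ^ 2 / 3 * etE f 2 m b0 (r / 3 / (s * M * (r / 3) + 1)) - w4 ^ 2 / 3 * etE f 2 m b0 (r / 3))) +
      (rO ⊤ b0 * (w4 ^ 2 / 3 * etE f 2 m b0 (r / 3) - w4 ^ 2 / 3 * etE f 2 m b0 0)) *
        (χ b * (toO α * (zet 3 - 1) / (3 * ((NI b0 : ℕ) : Om))) * ((1 - z) / (zet 3 - 1)) -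
          s * ((NI m : ℕ) : Om) * (l0 * (χ b0 * oN b0))) := by
    have e1 : Fb f 2 m χ (r / (s * M * r + 1)) b - Fb f 2 m χ r b =
        (z - 1) * (χ b * rO ⊤ b * (w4 ^ 2 / 3 * etE f 2 m b r - w4 ^ 2 / 3 * etE f 2 m b 0)) +
        χ b * (rO ⊤ b * rO b b0) * (toO α / (3 * ((NI b0 : ℕ) : Om)) * ((1 - z) / (1 - z0)) *
          (3 * (w4 ^ 2 / 3 * etE f 2 m b0 (r / 3 / (s * M * (r / 3) + 1)) - w4 ^ 2 / 3 * etE f 2 m b0 0) -
            (2 + z0) * (w4 ^ 2 / 3 * etE f 2 m b0 (r / 3) - w4 ^ 2 / 3 * etE f 2 m b0 0))) := by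
      unfold Fb
      linear_combination (χ b * rO ⊤ b * (w4 ^ 2 / 3)) * h9
    have e2 : tw 1 χ b0 = χ b0 * oN b0 := by
      unfold tw
      rw [pow_one]
    rw [e1, hfr]
    unfold Fb
    rw [e2]
    generalize w4 ^ 2 / 3 * etE f 2 m b0 (r / 3 / (s * M * (r / 3) + 1)) = x5
    generalize w4 ^ 2 / 3 * etE f 2 m b0 (r / 3) = x3
    generalize w4 ^ 2 / 3 * etE f 2 m b0 0 = x4
    generalize w4 ^ 2 / 3 * etE f 2 m b r = x1
    generalize w4 ^ 2 / 3 * etE f 2 m b 0 = x2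
    generalize ((NI b0 : ℕ) : Om) = n0 at *
    generalize toO α = A
    generalize zet 3 - 1 = y at *
    field_simp
    ring
  rw [key]
  refine DI.MP.add (DI.MP.add ?_ ?_) ?_
  · exact DI.MP.mul_right hz1 ((hχb.1.mul hrt).mul (v1.sub v2))
  · refine DI.MP.mul_right hα (((((hχb.1.mul hrt0).mul hN0u.inv.1).mul ?_)).mul (v5.sub v3))
    refine DI.VP.mul ?_ hmb0.inv.1
    have h1 := (hz2.vp).add ((hi s).mul (hnv (NI (m * b))))
    rwa [sub_add_cancel] at h1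
  · refine DI.MP.mul_left (hrt0.mul (v3.sub v4)) ?_
    have h1 : MP P (χ b * (toO α * (zet 3 - 1) / (3 * ((NI b0 : ℕ) : Om))) * ((1 - z) / (zet 3 - 1) -
        s * ((NI (m * b) : ℕ) : Om))) := DI.MP.mul_left (hχb.1.mul hθv) hz2
    have h2 := DI.MP.mul_left ((hi s).mul (hnv (NI m))) hco
    have h3 := h1.add h2
    have e : χ b * (toO α * (zet 3 - 1) / (3 * ((NI b0 : ℕ) : Om))) * ((1 - z) / (zet 3 - 1) -
        s * ((NI (m * b) : ℕ) : Om)) + s * ((NI m : ℕ) : Om) *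
        (χ b * (toO α * (zet 3 - 1) / (3 * ((NI b0 : ℕ) : Om))) * ((NI b : ℕ) : Om) - l0 * (χ b0 * oN b0)) =
        χ b * (toO α * (zet 3 - 1) / (3 * ((NI b0 : ℕ) : Om))) * ((1 - z) / (zet 3 - 1)) -
          s * ((NI m : ℕ) : Om) * (l0 * (χ b0 * oN b0)) := by
      rw [CV_NI_mul, Nat.cast_mul]
      ring
    rwa [e] at h3

/-! ## The symbol -/

theorem VH.xw'_vp (h : VH P f M k m R χ) {r : ℚ} (hr : r.den.Coprime M) : VP P (xw f k m R (tw 1 χ) r) := by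
  have hPp := h.hP.1.1
  rw [xw_eq]
  refine DI.VP.sum _ _ fun b hb => ?_
  have hbF := h.hR b hb
  unfold Fb tw
  rw [pow_one]
  exact (((v_up h.hχ hPp hbF).1.mul (oN_N h.hP hbF).1).mul (h.rOtop hbF).1).mul (h.E_vp hr hbF)

/-- The structure `Su`. -/
theorem VH.su (h : VH P f M k m R χ) [P.IsPrime] : ∃ la : RF P, (k = 1 → la = 0) ∧
    Su M (fun r => rs P (xw f k m R χ r)) (fun r => rs P (xw f k m R (tw 1 χ) r))
      (fun d => rs P (ps χ d)) la := by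
  have hPp := h.hP.1.1
  have hM2 := h.M2
  have hM3 := h.M3
  have hc : ∃ la : RF P, (k = 1 → la = 0) ∧ ∀ s : ℤ, (s = 1 ∨ s = -1) → ∀ r : ℚ, r.den.Coprime M →
      rs P (xw f k m R χ (r / (s * M * r + 1))) = rs P (xw f k m R χ r) +
        (s : RF P) * la * (rs P (xw f k m R (tw 1 χ) (r / 3)) - rs P (xw f k m R (tw 1 χ) 0)) := by
    rcases h.hk with rfl | rfl
    · refine ⟨0, fun _ => rfl, fun s hs r hr => ?_⟩
      rw [mul_zero, zero_mul, add_zero]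
      exact (rs_eq (h.xw_vp (Us hM2 s hr)) (h.xw_vp hr)).2 (h.U1 hs hr)
    · obtain ⟨la, hla, hU⟩ := h.U2
      refine ⟨rs P la, fun h1 => absurd h1 (by norm_num), fun s hs r hr => ?_⟩
      have v1 := h.xw_vp (χ := χ) (Us hM2 s hr)
      have v2 := h.xw_vp (χ := χ) hr
      have v3 := h.xw'_vp (χ := χ) (c3 hM3 hM2 hr)
      have v4 := h.xw'_vp (χ := χ) (cz M)
      have v5 : VP P ((s : ℤ) : Om) := DI.VP.int s
      have h2 := (rs_eq (v1.sub v2) ((v5.mul hla).mul (v3.sub v4))).2 (hU s hs r hr)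
      rw [rs_sub v1 v2, rs_mul (v5.mul hla) (v3.sub v4), rs_mul v5 hla, rs_sub v3 v4, rs_int] at h2
      linear_combination h2
  obtain ⟨la, hla, hU⟩ := hc
  refine ⟨la, hla, ?_, ?_, ?_, ?_, ?_, ?_⟩
  · intro r hr
    exact (rs_eq (h.xw_vp (cadd1 hr)) (h.xw_vp hr)).2 (h.xw_T hr)
  · intro r hr
    exact congrArg (rs P) (h.U3 hr)
  · intro a b c d hdet hb hc9 r hr
    obtain ⟨hv, h1⟩ := h.g hdet hb hc9 hr
    have hG : G0 M a b c d := ⟨hdet, dvd_trans ⟨9, by ring⟩ hc9⟩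
    obtain ⟨-, -, -, hgr⟩ := CV_mob hM2 hG hr
    obtain ⟨hbd, -⟩ := cmob hM2 hG
    have v1 := h.xw_vp (χ := χ) hgr
    have v2 := h.xw_vp (χ := χ) hbd
    have v3 := h.xw_vp (χ := χ) hr
    have v4 := h.xw_vp (χ := χ) (cz M)
    have h2 := (rs_eq (v1.sub v2) (hv.mul (v3.sub v4))).2 h1
    rw [rs_sub v1 v2, rs_mul hv (v3.sub v4), rs_sub v3 v4] at h2
    exact h2
  · intro d e hd hde
    obtain ⟨h1, h2, h3⟩ := h.ps_congr hd hde
    exact (rs_eq h1 h2).2 h3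
  · intro r hr
    have h1 := hU 1 (Or.inl rfl) r hr
    rw [Int.cast_one, Int.cast_one, one_mul, one_mul] at h1
    exact h1
  · intro r hr
    have h1 := hU (-1) (Or.inr rfl) r hr
    rw [Int.cast_neg, Int.cast_one, Int.cast_neg, Int.cast_one, neg_one_mul, neg_one_mul] at h1
    change rs P _ = rs P _ - la * (rs P _ - rs P _)
    rw [h1]
    ring

/-- **`S_V`.** -/
theorem sV (hT0 : S_T0) (hC1 : S_C1) (hC6 : S_C6) (hC9 : S_C9) (hC10 : S_C10) (hB7 : S_B7) (hR1 : S_R1)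
    (hD2 : S_D2) : S_V := by
  intro n t _ f M k e m R hm hR hRC hM χ hχ P hP hk he hTy
  have hPp : P.IsPrime := hP.1.1
  have h : VH P f M k m R χ := ⟨hP, hk, hm, hR, hRC, hM, hχ, hTy, hT0, hC1, hC6, hC9, hC10, hB7, hR1, hD2⟩
  have hM2 := h.M2
  have hM3 := h.M3
  have hM1 := h.hM.lv.one
  have ho : Nat.Coprime 3 M := (w_lvd hM.lv).2.2.2.2.symm
  have hu : ∀ j : ℕ, VP P ((-1 : Om) ^ j) := fun j => (DI.VP.one.neg).pow j
  have hvx : ∀ {r : ℚ}, r.den.Coprime M → VP P (xs f k e m R χ r) := fun {r} hr =>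
    (h.xw_vp hr).add ((hu e).mul (h.xw_vp (cneg hr)))
  have hvx' : ∀ {r : ℚ}, r.den.Coprime M → VP P (xs f k (1 - e) m R (tw 1 χ) r) := fun {r} hr =>
    (h.xw'_vp hr).add ((hu (1 - e)).mul (h.xw'_vp (cneg hr)))
  refine ⟨fun r hr => hvx hr, fun hA hA2 a b c d hG hd => ?_⟩
  have h1' : rs P ((-1 : Om)) = -1 := by rw [rs_neg DI.VP.one, rs_one]
  have hW : ∀ {r : ℚ}, r.den.Coprime M → rs P (xs f k e m R χ r) =
      rs P (xw f k m R χ r) + (-1) ^ e * rs P (xw f k m R χ (-r)) := by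
    intro r hr
    change rs P (xw f k m R χ r + (-1) ^ e * xw f k m R χ (-r)) = _
    rw [rs_add (h.xw_vp hr) ((hu e).mul (h.xw_vp (cneg hr))), rs_mul (hu e) (h.xw_vp (cneg hr)),
      rs_pow (DI.VP.one.neg), h1']
  have hW' : ∀ {r : ℚ}, r.den.Coprime M → rs P (xs f k (1 - e) m R (tw 1 χ) r) =
      rs P (xw f k m R (tw 1 χ) r) - (-1) ^ e * rs P (xw f k m R (tw 1 χ) (-r)) := by
    intro r hr
    change rs P (xw f k m R (tw 1 χ) r + (-1) ^ (1 - e) * xw f k m R (tw 1 χ) (-r)) = _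
    rw [rs_add (h.xw'_vp hr) ((hu (1 - e)).mul (h.xw'_vp (cneg hr))), rs_mul (hu (1 - e)) (h.xw'_vp (cneg hr)),
      rs_pow (DI.VP.one.neg), h1']
    rcases he with rfl | rfl
    · rw [Nat.sub_zero, pow_one, pow_zero]
      ring
    · rw [Nat.sub_self, pow_zero, pow_one]
      ring
  have hcj : ∀ (c : ℤ) (j : ℕ), ((c : ℚ) / 3 ^ j).den.Coprime M := by
    intro c j
    exact thmV_den ho ⟨c, j, by rw [Nat.cast_ofNat]⟩
  obtain ⟨la, hla, hS⟩ := h.su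
  obtain ⟨hbd, -⟩ := cmob hM2 hG
  refine (rs_eq (hvx hbd) (hvx (cz M))).1 ?_
  rw [hW hbd, hW (cz M)]
  refine hS.sym hM1 hM2 (u := (-1) ^ e) (fun c j => ?_) (fun c j => ?_) hG hd
  · have h1 := hcj c j
    have h2 := (rs_eq (hvx h1) (hvx (cz M))).2 (hA c j)
    rwa [hW h1, hW (cz M)] at h2
  · rcases hk with hk | hk
    · rw [hla hk, zero_mul]
    · have h1 := hcj c j
      have h2 := (rs_eq (hvx' h1) (hvx' (cz M))).2 (hA2 hk c j)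
      rw [hW' h1, hW' (cz M)] at h2
      have h3 : rs P (xw f k m R (tw 1 χ) (c / 3 ^ j)) - (-1) ^ e * rs P (xw f k m R (tw 1 χ) (-(c / 3 ^ j))) -
          (rs P (xw f k m R (tw 1 χ) 0) - (-1) ^ e * rs P (xw f k m R (tw 1 χ) (-0))) = 0 := sub_eq_zero.2 h2
      change la * (rs P (xw f k m R (tw 1 χ) (c / 3 ^ j)) -
        (-1) ^ e * rs P (xw f k m R (tw 1 χ) (-(c / 3 ^ j))) -
          (rs P (xw f k m R (tw 1 χ) 0) - (-1) ^ e * rs P (xw f k m R (tw 1 χ) (-0)))) = 0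
      rw [h3, mul_zero]

end Pool.Agent.DM.DU
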