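import Pool.Agent.Lib.DM.CV.C10
import Pool.Agent.Lib.DU.IfaceC
import Pool.Agent.Lib.DU.O.O4

/-!
# Theorem DU, part CV: elementary facts (author helper28, a port of `DM/CV/Bas.lean` of helper97)

The general lemmas of `DM/CV/Bas.lean` (`w_up`, `w_fok`, `w_fm`, `w_fb`, ..) are used as they are.
-/

set_option autoImplicit false

open scoped Pointwise nonZeroDivisors

noncomputable section

namespace Pool.Agent.DM.DU

open Pool.Agent.MuZ Pool.Agent.FW NumberField IsDedekindDomain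
open Pool.Agent.DI (io ofC io_inj exists_io io_ofC ofC_io VP MP UP TP ex)
open Pool.Agent.DN

variable {n t : ℕ}

/-! ## The classes modulo `3` -/

theorem sq3 {f : ℕ} (h : f.Coprime 3) : (3 : ℤ) ∣ (f : ℤ) ^ 2 - 1 := by
  have h1 : ¬ (3 : ℤ) ∣ (f : ℤ) := w_cop3.1 h
  have h2 : (f : ℤ) % 3 = 1 ∨ (f : ℤ) % 3 = 2 := by omega
  have e : (f : ℤ) ^ 2 - 1 = ((f : ℤ) - 1) * ((f : ℤ) + 1) := by ring
  rw [e]
  rcases h2 with h2 | h2
  · exact Dvd.dvd.mul_right (by omega) _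
  · exact Dvd.dvd.mul_left (by omega) _

/-- `tm` is a system of representatives. -/
theorem tm_isG {f : ℕ} (hf : f.Coprime 3) : IsG f 1 (tm n t f) := by
  classical
  have h3 := sq3 hf
  have hco : IsCoprime (3 : ℤ) ((f : ℤ) ^ 2) := by
    refine IsCoprime.pow_right ?_
    have := Nat.isCoprime_iff_coprime.2 hf.symm
    exact_mod_cast this
  refine ⟨?_, ?_, ?_⟩
  · intro α hα
    unfold tm at hα
    rw [Finset.mem_filter, Finset.mem_image] at hα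
    obtain ⟨⟨p, -, rfl⟩, h2⟩ := hα
    refine ⟨?_, h2⟩
    rw [nat_dvd_iff, QuadraticAlgebra.re_sub, QuadraticAlgebra.im_sub, re_one, im_one]
    constructor
    · refine ⟨(f : ℤ) * ((p.1 : ℤ) - 1), ?_⟩
      change 1 + (f : ℤ) ^ 2 * ((p.1 : ℤ) - 1) - 1 = _
      ring
    · refine ⟨(f : ℤ) * p.2, ?_⟩
      change (f : ℤ) ^ 2 * (p.2 : ℤ) - 0 = _
      ring
  · intro v hv hv3
    obtain ⟨i, hi⟩ : ∃ i : ℕ, (i : ℤ) = v.re % 3 :=
      ⟨(v.re % 3).toNat, Int.toNat_of_nonneg (Int.emod_nonneg _ (by norm_num))⟩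
    obtain ⟨j, hj⟩ : ∃ j : ℕ, (j : ℤ) = v.im % 3 :=
      ⟨(v.im % 3).toNat, Int.toNat_of_nonneg (Int.emod_nonneg _ (by norm_num))⟩
    have hi3 : i < 3 := by omega
    have hj3 : j < 3 := by omega
    obtain ⟨s, hs⟩ := h3
    have h4 : ((3 : ℕ) : OO n t) ∣ v - tmv n t f i j := by
      rw [nat_dvd_iff, QuadraticAlgebra.re_sub, QuadraticAlgebra.im_sub]
      constructor
      · refine ⟨v.re / 3 - s * ((i : ℤ) - 1), ?_⟩
        change v.re - (1 + (f : ℤ) ^ 2 * ((i : ℤ) - 1)) = _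
        have h5 := Int.emod_add_mul_ediv v.re 3
        rw [← hi] at h5
        push_cast
        linear_combination (-1) * h5 - ((i : ℤ) - 1) * hs
      · refine ⟨v.im / 3 - s * (j : ℤ), ?_⟩
        change v.im - (f : ℤ) ^ 2 * (j : ℤ) = _
        have h5 := Int.emod_add_mul_ediv v.im 3
        rw [← hj] at h5
        push_cast
        linear_combination (-1) * h5 - (j : ℤ) * hs
    have h5 : ((f : ℕ) : OO n t) ∣ tmv n t f i j - 1 := by
      rw [nat_dvd_iff, QuadraticAlgebra.re_sub, QuadraticAlgebra.im_sub, re_one, im_one]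
      constructor
      · refine ⟨(f : ℤ) * ((i : ℤ) - 1), ?_⟩
        change 1 + (f : ℤ) ^ 2 * ((i : ℤ) - 1) - 1 = _
        ring
      · refine ⟨(f : ℤ) * j, ?_⟩
        change (f : ℤ) ^ 2 * (j : ℤ) - 0 = _
        ring
    refine ⟨tmv n t f i j, ?_, ?_⟩
    · unfold tm
      rw [Finset.mem_filter, Finset.mem_image]
      refine ⟨⟨(i, j), ?_, rfl⟩, cop_congr h4 hv3⟩
      rw [Finset.mem_product, Finset.mem_range, Finset.mem_range]
      exact ⟨hi3, hj3⟩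
    · rw [pow_one]
      refine CV_cast_mul hf ?_ h4
      have h6 := dvd_sub hv h5
      rwa [sub_sub_sub_cancel_right] at h6
  · intro α hα α' hα' h
    unfold tm at hα hα'
    rw [Finset.mem_filter, Finset.mem_image] at hα hα'
    obtain ⟨⟨⟨x, y⟩, hp, rfl⟩, -⟩ := hα
    obtain ⟨⟨⟨x', y'⟩, hp', rfl⟩, -⟩ := hα'
    rw [Finset.mem_product, Finset.mem_range, Finset.mem_range] at hp hp'
    obtain ⟨hx, hy⟩ := hp
    obtain ⟨hx', hy'⟩ := hp'
    change x < 3 at hx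
    change y < 3 at hy
    change x' < 3 at hx'
    change y' < 3 at hy'
    rw [pow_one] at h
    have h := CV_cast_dvd (Dvd.intro_left _ rfl : 3 ∣ f * 3) h
    rw [nat_dvd_iff, QuadraticAlgebra.re_sub, QuadraticAlgebra.im_sub] at h
    obtain ⟨h4, h5⟩ := h
    change ((3 : ℕ) : ℤ) ∣ (1 + (f : ℤ) ^ 2 * ((x : ℤ) - 1)) - (1 + (f : ℤ) ^ 2 * ((x' : ℤ) - 1)) at h4
    change ((3 : ℕ) : ℤ) ∣ (f : ℤ) ^ 2 * (y : ℤ) - (f : ℤ) ^ 2 * (y' : ℤ) at h5
    have key : ∀ a b : ℕ, a < 3 → b < 3 → (3 : ℤ) ∣ (f : ℤ) ^ 2 * ((a : ℤ) - b) → a = b := by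
      intro a b ha hb h6
      have h7 := hco.dvd_of_dvd_mul_left h6
      omega
    have e1 : (1 + (f : ℤ) ^ 2 * ((x : ℤ) - 1)) - (1 + (f : ℤ) ^ 2 * ((x' : ℤ) - 1)) =
        (f : ℤ) ^ 2 * ((x : ℤ) - x') := by ring
    rw [e1] at h4
    rw [← mul_sub] at h5
    have h6 := key x x' hx hx' (by exact_mod_cast h4)
    have h7 := key y y' hy hy' (by exact_mod_cast h5)
    change tmv n t f x y = tmv n t f x' y'
    rw [h6, h7]

theorem w_tm {f : ℕ} (hf : Fok f) {α : OO n t} (h : α ∈ tm n t f) :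
    (f : OO n t) ∣ α - 1 ∧ Cop α 3 := (tm_isG hf.cop).mem α h

theorem w_tm_cop [SqN n t] {f : ℕ} (hf : Fok f) {α : OO n t} (h : α ∈ tm n t f) :
    Cop α (3 * f) := CV_cop_mul.2 ⟨(w_tm hf h).2, CV_cop_of_dvd (w_tm hf h).1⟩

theorem w_tm_uni {f : ℕ} (hf : Fok f) {α α' : OO n t} (h : α ∈ tm n t f)
    (h' : α' ∈ tm n t f) (hd : (3 : OO n t) ∣ α - α') : α = α' := by
  refine (tm_isG hf.cop).uni α h α' h' ?_
  rw [pow_one]
  refine CV_cast_mul hf.cop ?_ (by rwa [w_cast3])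
  have h1 := dvd_sub (w_tm hf h).1 (w_tm hf h').1
  rwa [sub_sub_sub_cancel_right] at h1

theorem w_tm_ex [SqN n t] {f : ℕ} (hf : Fok f) {v : OO n t} (hv : Cop v 3) :
    ∃ α ∈ tm n t f, (3 : OO n t) ∣ v - α := by
  obtain ⟨u, -, hu1, hu2⟩ := (aO11 n t).2.2.2.2.2 f 3 1 v hf.pos (by norm_num) hf.cop
  rw [w_cast3] at hu2
  have hu3 : Cop u 3 := by
    refine cop_congr (a := v) ?_ hv
    rw [w_cast3]
    have h1 := dvd_neg.2 hu2
    rwa [neg_sub] at h1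
  obtain ⟨α, hα, h1⟩ := (tm_isG hf.cop).ex u hu1 hu3
  rw [pow_one] at h1
  refine ⟨α, hα, ?_⟩
  have h2 := w_dvd3 (Dvd.intro_left _ rfl : 3 ∣ f * 3) h1
  have e : v - α = (u - α) - (u - v) := by ring
  rw [e]
  exact dvd_sub h2 hu2

/-! ## Levels -/

theorem w_lv [SqN n t] {f M : ℕ} {m : Ideal (OO n t)} {R : Finset (Ideal (OO n t))} (h : IsLv f m R M)
    {b : Ideal (OO n t)} (hb : b ∈ R) : IsLv f m {b} M := by
  refine ⟨h.pos, h.one, dvd_trans ?_ h.dvd⟩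
  unfold lev
  rw [Finset.prod_singleton]
  exact mul_dvd_mul_left _ (pow_dvd_pow_of_dvd (mul_dvd_mul_left _ (Finset.dvd_prod_of_mem NI hb)) 3)

theorem w_lvd [SqN n t] {f M : ℕ} {m : Ideal (OO n t)} {R : Finset (Ideal (OO n t))} (h : IsLv f m R M) :
    f ∣ M ∧ NI m ∣ M ∧ Dk n t / 3 ∣ M ∧ (∀ b ∈ R, NI b ∣ M) ∧ M.Coprime 3 := by
  have h1 := h.dvd
  unfold lev at h1
  refine ⟨dvd_trans ?_ h1, dvd_trans ?_ h1, dvd_trans ?_ h1, fun b hb => dvd_trans ?_ h1, ?_⟩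
  · exact Dvd.dvd.mul_right (Dvd.intro_left (Dk n t / 3 * f) (by ring)) _
  · exact Dvd.dvd.mul_left (dvd_pow (Dvd.intro _ rfl) (by norm_num)) _
  · exact Dvd.dvd.mul_right (Dvd.intro _ rfl) _
  · exact Dvd.dvd.mul_left (dvd_pow (Dvd.dvd.mul_left (Finset.dvd_prod_of_mem NI hb) _) (by norm_num)) _
  · refine Nat.Coprime.symm ((Nat.Prime.coprime_iff_not_dvd Nat.prime_three).2 fun h2 => ?_)
    have h3 := h.one
    omega

/-! ## `w4`, `zs` -/

theorem w_w4 {P : Ideal ZZ} (hT0 : S_T0) (hP : Ab3 P) : VP P w4 ∧ MP P w4 ∧ w4 ≠ 0 := by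
  have hPp := hP.1.1
  have h1 : MP P w4 := by
    apply DI.MP.of_pow (n := 4)
    rw [hT0.1]
    exact hP.2
  refine ⟨h1.vp, h1, ?_⟩
  intro h
  have h2 := hT0.1
  rw [h] at h2
  norm_num at h2

theorem w_zs [Ram3 n t] {v : OO n t} (hv : Cop v 3) : zs v = 1 ∨ zs v = -1 := by
  rcases (zs_ph v).2 with h | h | h
  · exact Or.inl h
  · exact Or.inr h
  · exact absurd ((zs_zero v).1 h) ((cop3_pp v).1 hv)

theorem w_zs_vp (P : Ideal ZZ) [P.IsPrime] (v : OO n t) : VP P ((zs v : ℤ) : Om) := DI.VP.int _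

theorem three_mem_pp : (3 : OO n t) ∈ pp n t := Ideal.subset_span (by simp)

theorem w_zs_congr [Ram3 n t] {v u : OO n t} (h : (3 : OO n t) ∣ v - u) : zs v = zs u := by
  obtain ⟨w, hw⟩ := h
  refine zs_cong ?_
  rw [hw]
  exact Ideal.mul_mem_right _ _ three_mem_pp

end Pool.Agent.DM.DU
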