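import Pool.Agent.Lib.DM.V.V
import Pool.Agent.Lib.DR.CV.Abs2

/-!
# Theorem DU, part CV, module Abs: abstract symbols at a ramified prime above `3` (author helper97)

`gen9`: `T`, `U³ = (1 0; 3M 1)` and the elements with `3 ∣ b`, `9 M ∣ c` generate `Γ_0(3M)`.
`thmV3`: theorem V with `Γ_0(3M)` and `Γ_0(3M) U`. `Su.sym`: the symbols of theorem DU.
-/

set_option autoImplicit false

noncomputable section

namespace Pool.Agent.DM.DU

open Pool.Agent.DN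
open Pool.Agent.DR (HS HS.left cz cadd cadd1 cneg cmob Udir)
open DT.V (AL)

/-! ## Generation of `Γ_0(3M)` -/

theorem gen9 {M : ℕ} {Q : ℤ → ℤ → ℤ → ℤ → Prop}
    (h0 : ∀ a b c d : ℤ, a * d - b * c = 1 → (3 : ℤ) ∣ b → (9 * M : ℤ) ∣ c → Q a b c d)
    (hT : ∀ a b c d : ℤ, a * d - b * c = 1 → (3 * M : ℤ) ∣ c → Q (a + c) (b + d) c d → Q a b c d)
    (hU : ∀ a b c d : ℤ, a * d - b * c = 1 → (3 * M : ℤ) ∣ c →
      Q a b (c + 3 * M * a) (d + 3 * M * b) → Q a b c d) :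
    ∀ a b c d : ℤ, a * d - b * c = 1 → (3 * M : ℤ) ∣ c → Q a b c d := by
  have h39 : ∀ {c : ℤ}, (9 * M : ℤ) ∣ c → (3 * M : ℤ) ∣ c := by
    rintro c ⟨x, rfl⟩
    exact ⟨3 * x, by ring⟩
  have h3 : ∀ {a b c d : ℤ}, a * d - b * c = 1 → (3 * M : ℤ) ∣ c → ¬ (3 : ℤ) ∣ a ∧ ¬ (3 : ℤ) ∣ d := by
    rintro a b c d h ⟨x, rfl⟩
    constructor
    · rintro ⟨y, rfl⟩
      have : (3 : ℤ) ∣ 1 := ⟨y * d - b * M * x, by linear_combination -h⟩
      omega
    · rintro ⟨y, rfl⟩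
      have : (3 : ℤ) ∣ 1 := ⟨a * y - b * M * x, by linear_combination -h⟩
      omega
  -- step 1
  have s1 : ∀ a b c d : ℤ, a * d - b * c = 1 → (9 * M : ℤ) ∣ c → Q a b c d := by
    intro a b c d h hc
    obtain ⟨-, hd⟩ := h3 h (h39 hc)
    have h2 : (3 : ℤ) ∣ b ∨ (3 : ℤ) ∣ b + d ∨ (3 : ℤ) ∣ b + d + d := by
      rcases (by omega : b % 3 = 0 ∨ b % 3 = 1 ∨ b % 3 = 2) with h5 | h5 | h5 <;>
        rcases (by omega : d % 3 = 1 ∨ d % 3 = 2) with h6 | h6 <;> omega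
    rcases h2 with h2 | h2 | h2
    · exact h0 a b c d h h2 hc
    · exact hT a b c d h (h39 hc) (h0 _ _ _ _ (by linear_combination h) h2 hc)
    · exact hT a b c d h (h39 hc) (hT _ _ _ _ (by linear_combination h) (h39 hc)
        (h0 _ _ _ _ (by linear_combination h) h2 hc))
  rintro a b c d h hc
  obtain ⟨ha, -⟩ := h3 h hc
  obtain ⟨x, hx⟩ := hc
  have h2 : (3 : ℤ) ∣ x ∨ (3 : ℤ) ∣ x + a ∨ (3 : ℤ) ∣ x + a + a := by
    rcases (by omega : x % 3 = 0 ∨ x % 3 = 1 ∨ x % 3 = 2) with h5 | h5 | h5 <;>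
      rcases (by omega : a % 3 = 1 ∨ a % 3 = 2) with h6 | h6 <;> omega
  rcases h2 with ⟨y, hy⟩ | ⟨y, hy⟩ | ⟨y, hy⟩
  · exact s1 a b c d h ⟨y, by rw [hx, hy]; ring⟩
  · refine hU a b c d h ⟨x, hx⟩ (s1 _ _ _ _ (by linear_combination h) ⟨y, ?_⟩)
    rw [hx]
    linear_combination (3 * (M : ℤ)) * hy
  · refine hU a b c d h ⟨x, hx⟩ (hU _ _ _ _ (by linear_combination h) ⟨x + a, by rw [hx]; ring⟩
      (s1 _ _ _ _ (by linear_combination h) ⟨y, ?_⟩))
    rw [hx]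
    linear_combination (3 * (M : ℤ)) * hy

/-! ## Theorem V -/

/-- Denominators. -/
theorem thmV3_ne {M : ℕ} (ho : Nat.Coprime 3 M) (hM : 2 ≤ M) {y : ℚ} (hy : AL 3 y) : (M : ℚ) * y + 1 ≠ 0 :=
  (Udir hM (thmV_den ho hy)).1

/-- From level `3 M` to level `M`. -/
theorem thmV3_up {M : ℕ} (hM1 : M % 3 = 1) (hM : 2 ≤ M) {E : ℚ → ℚ → Prop} (hE : Equivalence E)
    (h1 : ∀ a b c d : ℤ, a * d - b * c = 1 → (3 * M : ℤ) ∣ c → ∀ y : ℚ, AL 3 y →
      E ((a * y + b) / (c * y + d)) (b / d))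
    (h2 : ∀ a b c d : ℤ, a * d - b * c = 1 → (3 * M : ℤ) ∣ c → ∀ y : ℚ, AL 3 y →
      E ((a * (y / (M * y + 1)) + b) / (c * (y / (M * y + 1)) + d)) (b / d)) :
    ∀ a b c d : ℤ, a * d - b * c = 1 → (M : ℤ) ∣ c → ∀ y : ℚ, AL 3 y →
      E ((a * y + b) / (c * y + d)) (b / d) := by
  have ho : Nat.Coprime 3 M := (Nat.Prime.coprime_iff_not_dvd Nat.prime_three).2 (by omega)
  obtain ⟨s, hs⟩ : ∃ s : ℤ, (M : ℤ) = 3 * s + 1 := ⟨(M / 3 : ℕ), by omega⟩
  -- the case `U`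
  have hU : ∀ a b c d : ℤ, a * d - b * c = 1 → (M : ℤ) ∣ c → (3 : ℤ) ∣ c - d → ∀ y : ℚ, AL 3 y →
      E ((a * y + b) / (c * y + d)) (b / d) := by
    rintro a b c d hdet ⟨c', rfl⟩ ⟨x, hx⟩ y hy
    have h4 : (3 * M : ℤ) ∣ M * c' - d * M := by
      have h5 : (3 : ℤ) ∣ c' - d := by
        refine ⟨x - s * c', ?_⟩
        have h6 : (M : ℤ) * c' = 3 * s * c' + c' := by rw [hs]; ring
        linear_combination hx - h6
      obtain ⟨z, hz⟩ := h5
      exact ⟨z, by linear_combination (M : ℤ) * hz⟩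
    have h5 := h2 (a - b * M) b (M * c' - d * M) d (by linear_combination hdet) h4 y hy
    have hn := thmV3_ne ho hM hy
    have e1 : ((a - b * M : ℤ) : ℚ) * (y / (M * y + 1)) + b = (a * y + b) / (M * y + 1) := by
      push_cast
      rw [eq_div_iff hn, add_mul, mul_assoc, div_mul_cancel₀ _ hn]
      ring
    have e2 : ((M * c' - d * M : ℤ) : ℚ) * (y / (M * y + 1)) + d =
        (((M * c' : ℤ) : ℚ) * y + d) / (M * y + 1) := by
      push_cast
      rw [eq_div_iff hn, add_mul, mul_assoc, div_mul_cancel₀ _ hn]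
      ring
    rwa [e1, e2, div_div_div_cancel_right₀ hn] at h5
  -- the translation
  have hT : ∀ a b c d k : ℤ, a * d - b * c = 1 → (M : ℤ) ∣ c → (3 : ℤ) ∣ c - (d - k * c) → ∀ y : ℚ, AL 3 y →
      E ((a * y + b) / (c * y + d)) (b / d) := by
    intro a b c d k hdet hc hk y hy
    have hkA : AL 3 (k : ℚ) := AL.int k
    have h4 : ∀ z : ℚ, AL 3 z → E ((a * z + b) / (c * z + d)) ((b - k * a : ℤ) / (d - k * c : ℤ)) := by
      intro z hz
      have h5 := hU a (b - k * a) c (d - k * c) (by linear_combination hdet) hc hk (z + k)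
        (hz.add (by norm_num) hkA)
      have e1 : (a : ℚ) * (z + k) + ((b - k * a : ℤ) : ℚ) = a * z + b := by
        push_cast
        ring
      have e2 : (c : ℚ) * (z + k) + ((d - k * c : ℤ) : ℚ) = c * z + d := by
        push_cast
        ring
      rwa [e1, e2] at h5
    have h6 := h4 0 AL.zero
    rw [mul_zero, mul_zero, zero_add, zero_add] at h6
    exact hE.trans (h4 y hy) (hE.symm h6)
  intro a b c d hdet hc y hy
  by_cases h3 : (3 : ℤ) ∣ c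
  · refine h1 a b c d hdet ?_ y hy
    obtain ⟨c', rfl⟩ := hc
    have h4 : (3 : ℤ) ∣ c' := by
      have h5 : (M : ℤ) * c' = 3 * (s * c') + c' := by rw [hs]; ring
      rw [h5] at h3
      exact (dvd_add_right (Dvd.intro _ rfl)).1 h3
    obtain ⟨z, rfl⟩ := h4
    exact ⟨z, by ring⟩
  · have h4 : ∃ k : ℤ, (3 : ℤ) ∣ c - (d - k * c) := by
      rcases (by omega : d % 3 = 0 ∨ d % 3 = 1 ∨ d % 3 = 2) with h5 | h5 | h5 <;>
        rcases (by omega : c % 3 = 1 ∨ c % 3 = 2) with h6 | h6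
      · exact ⟨2, by omega⟩
      · exact ⟨2, by omega⟩
      · exact ⟨0, by omega⟩
      · exact ⟨1, by omega⟩
      · exact ⟨1, by omega⟩
      · exact ⟨0, by omega⟩
    obtain ⟨k, hk⟩ := h4
    exact hT a b c d k hdet hc hk y hy

/-- **Theorem V for symbols of level `3 M` which are constant on `ℤ[1/3]`.** -/
theorem thmV3 {M : ℕ} (hM1 : M % 3 = 1) (hM : 2 ≤ M) {E : ℚ → ℚ → Prop} (hE : Equivalence E)
    (h1 : ∀ a b c d : ℤ, a * d - b * c = 1 → (3 * M : ℤ) ∣ c → ∀ y : ℚ, AL 3 y →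
      E ((a * y + b) / (c * y + d)) (b / d))
    (h2 : ∀ a b c d : ℤ, a * d - b * c = 1 → (3 * M : ℤ) ∣ c → ∀ y : ℚ, AL 3 y →
      E ((a * (y / (M * y + 1)) + b) / (c * (y / (M * y + 1)) + d)) (b / d))
    {a b c d : ℤ} (hG : G0 M a b c d) (hd : (M : ℤ) ∣ d - 1) : E (b / d) 0 := by
  have ho : Nat.Coprime 3 M := (Nat.Prime.coprime_iff_not_dvd Nat.prime_three).2 (by omega)
  have hbd : IsCoprime b d := ⟨-c, a, by linarith [hG.1]⟩
  exact thmV Nat.prime_three (by norm_num) ho hM hE (thmV3_up hM1 hM hE h1 h2) hbd hd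

/-! ## Symbols -/

variable {F : Type} [CommRing F]

/-- The hypotheses on the functions `W`, `W'`. -/
structure Su (M : ℕ) (W W' : ℚ → F) (ps : ℤ → F) (la : F) : Prop where
  T : ∀ r : ℚ, r.den.Coprime M → W (r + 1) = W r
  U3 : ∀ r : ℚ, r.den.Coprime M → W (r / (3 * M * r + 1)) = W r
  g : ∀ a b c d : ℤ, a * d - b * c = 1 → (3 : ℤ) ∣ b → (9 * M : ℤ) ∣ c → ∀ r : ℚ, r.den.Coprime M →
    W ((a * r + b) / (c * r + d)) - W (b / d) = ps d * (W r - W 0)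
  pc : ∀ d e : ℤ, IsCoprime d (3 * M : ℤ) → (3 * M : ℤ) ∣ d - e → ps d = ps e
  U : ∀ r : ℚ, r.den.Coprime M → W (r / (M * r + 1)) = W r + la * (W' (r / 3) - W' 0)
  V : ∀ r : ℚ, r.den.Coprime M → W (r / (-(M : ℚ) * r + 1)) = W r - la * (W' (r / 3) - W' 0)

variable {M : ℕ} {W W' : ℚ → F} {ps : ℤ → F} {la : F}

/-- The transformation under `Γ_0(3M)`. -/
theorem Su.all (h : Su M W W' ps la) (hM : 2 ≤ M) {a b c d : ℤ} (hdet : a * d - b * c = 1)
    (hc : (3 * M : ℤ) ∣ c) : HS M W (ps d) a b c d := by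
  have hG : ∀ {a b c d : ℤ}, a * d - b * c = 1 → (3 * M : ℤ) ∣ c → G0 M a b c d := by
    rintro a b c d h ⟨x, rfl⟩
    exact ⟨h, ⟨3 * x, by ring⟩⟩
  refine gen9 (Q := fun a b c d => HS M W (ps d) a b c d) (fun a b c d hG hb hc => h.g a b c d hG hb hc)
    ?_ ?_ a b c d hdet hc
  · intro a b c d hdet hc hQ
    have hW : ∀ s : ℚ, s.den.Coprime M →
        W ((((1 : ℤ) : ℚ) * s + ((1 : ℤ) : ℚ)) / (((0 : ℤ) : ℚ) * s + ((1 : ℤ) : ℚ))) = W s := by
      intro s hs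
      have e : (((1 : ℤ) : ℚ) * s + ((1 : ℤ) : ℚ)) / (((0 : ℤ) : ℚ) * s + ((1 : ℤ) : ℚ)) = s + 1 := by
        push_cast
        rw [one_mul, zero_mul, zero_add, div_one]
      rw [e, h.T s hs]
    have h1 := (HS.left hM (p := 1) (q := 1) (u := 0) (v := 1) hW (hG hdet hc) (ps d)).1
    rw [one_mul, one_mul, one_mul, one_mul, zero_mul, zero_mul, zero_add, zero_add] at h1
    exact h1 hQ
  · intro a b c d hdet hc hQ
    have hW : ∀ s : ℚ, s.den.Coprime M →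
        W ((((1 : ℤ) : ℚ) * s + ((0 : ℤ) : ℚ)) / (((3 * M : ℤ) : ℚ) * s + ((1 : ℤ) : ℚ))) = W s := by
      intro s hs
      have e : (((1 : ℤ) : ℚ) * s + ((0 : ℤ) : ℚ)) / (((3 * M : ℤ) : ℚ) * s + ((1 : ℤ) : ℚ)) =
          s / (3 * M * s + 1) := by
        push_cast
        rw [one_mul, add_zero]
      rw [e, h.U3 s hs]
    have h1 := (HS.left hM (p := 1) (q := 0) (u := 3 * M) (v := 1) hW (hG hdet hc) (ps d)).1
    rw [one_mul, one_mul, zero_mul, zero_mul, add_zero, add_zero, one_mul, one_mul] at h1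
    have hd : IsCoprime (d + 3 * M * b) (3 * M : ℤ) := by
      obtain ⟨x, rfl⟩ := hc
      exact ⟨a, -(b * x) - a * b, by linear_combination hdet⟩
    have h2 : ps (d + 3 * M * b) = ps d := h.pc _ _ hd ⟨b, by ring⟩
    rw [h2] at hQ
    have e1 : (3 * M : ℤ) * a + c = c + 3 * M * a := by ring
    have e2 : (3 * M : ℤ) * b + d = d + 3 * M * b := by ring
    rw [e1, e2] at h1
    exact h1 hQ

/-- **Constant symbols.** -/
theorem Su.sym (h : Su M W W' ps la) (hM1 : M % 3 = 1) (hM : 2 ≤ M) {u : F}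
    (hA : ∀ (c : ℤ) (j : ℕ), W (c / 3 ^ j) + u * W (-(c / 3 ^ j)) = W 0 + u * W (-0))
    (hA' : ∀ (c : ℤ) (j : ℕ), la * (W' (c / 3 ^ j) - u * W' (-(c / 3 ^ j)) - (W' 0 - u * W' (-0))) = 0)
    {a b c d : ℤ} (hG : G0 M a b c d) (hd : (M : ℤ) ∣ d - 1) :
    W (b / d) + u * W (-(b / d)) = W 0 + u * W (-0) := by
  have ho : Nat.Coprime 3 M := (Nat.Prime.coprime_iff_not_dvd Nat.prime_three).2 (by omega)
  have hB : ∀ y : ℚ, AL 3 y → W y + u * W (-y) = W 0 + u * W (-0) := by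
    rintro y ⟨c, j, rfl⟩
    have h1 := hA c j
    rwa [Nat.cast_ofNat]
  have hB' : ∀ y : ℚ, AL 3 y → la * (W' y - u * W' (-y) - (W' 0 - u * W' (-0))) = 0 := by
    rintro y ⟨c, j, rfl⟩
    have h1 := hA' c j
    rwa [Nat.cast_ofNat]
  have hg : ∀ a b c d : ℤ, a * d - b * c = 1 → (3 * M : ℤ) ∣ c → ∀ y : ℚ, y.den.Coprime M →
      W ((a * y + b) / (c * y + d)) + u * W (-((a * y + b) / (c * y + d))) -
        (W (b / d) + u * W (-(b / d))) = ps d * (W y + u * W (-y) - (W 0 + u * W (-0))) := by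
    intro a b c d h1 h2 y hy
    have e := h.all hM h1 h2 y hy
    have e' := h.all (a := a) (b := -b) (c := -c) (d := d) hM (by linear_combination h1) ((dvd_neg).2 h2) (-y)
      (cneg hy)
    have e2 : ((a : ℚ) * -y + ((-b : ℤ) : ℚ)) / (((-c : ℤ) : ℚ) * -y + d) = -((a * y + b) / (c * y + d)) := by
      have e3 : ((-c : ℤ) : ℚ) * -y + d = c * y + d := by push_cast; ring
      have e4 : (a : ℚ) * -y + ((-b : ℤ) : ℚ) = -(a * y + b) := by push_cast; ring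
      rw [e3, e4, neg_div]
    have e5 : ((-b : ℤ) : ℚ) / d = -(b / d) := by push_cast; rw [neg_div]
    rw [e2, e5] at e'
    rw [neg_zero]
    linear_combination e + u * e'
  refine thmV3 (E := fun r s => W r + u * W (-r) = W s + u * W (-s)) hM1 hM ⟨fun _ => rfl, fun h => h.symm,
    fun h h' => h.trans h'⟩ ?_ ?_ hG hd
  · intro a b c d h1 h2 y hy
    have h3 := hg a b c d h1 h2 y (thmV_den ho hy)
    rw [hB y hy, sub_self, mul_zero, sub_eq_zero] at h3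
    exact h3
  · intro a b c d h1 h2 y hy
    have hyd := thmV_den (M := M) ho hy
    obtain ⟨hne, hUy⟩ := Udir hM hyd
    have h3 := hg a b c d h1 h2 _ hUy
    have k1 := h.U y hyd
    have k2 := h.V (-y) (cneg hyd)
    have e1 : -y / (-(M : ℚ) * -y + 1) = -(y / (M * y + 1)) := by
      have e2 : -(M : ℚ) * -y + 1 = M * y + 1 := by ring
      rw [e2, neg_div]
    rw [e1] at k2
    have hy3 : AL 3 (y / 3) := by
      obtain ⟨c, j, rfl⟩ := hy
      refine ⟨c, j + 1, ?_⟩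
      rw [Nat.cast_ofNat, pow_succ, div_div]
    have k3 := hB' _ hy3
    have e3 : -y / 3 = -(y / 3) := neg_div _ _
    rw [e3] at k2
    have k4 := hB y hy
    have k5 : W (y / (M * y + 1)) + u * W (-(y / (M * y + 1))) = W 0 + u * W (-0) := by
      rw [k1, k2]
      rw [neg_zero] at k3 k4 ⊢
      linear_combination k3 + k4
    rw [k5, sub_self, mul_zero, sub_eq_zero] at h3
    exact h3

end Pool.Agent.DM.DU
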