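import Pool.Agent.Lib.DM.CV.V2
import Pool.Agent.Lib.DU.CV.Bas
import Pool.Agent.Lib.DU.CV.Abs
import Pool.Agent.Lib.DU.IfaceC
import Pool.Agent.Lib.DN.C.Ech

/-!
# Theorem DU, part CV, module V1: the class functions `E_b`, the terms of the symbol (author helper97)
-/

set_option autoImplicit false

open scoped Pointwise nonZeroDivisors

noncomputable section

namespace Pool.Agent.DM.DU

open Pool.Agent.MuZ Pool.Agent.FW NumberField IsDedekindDomain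
open Pool.Agent.DI (io ofC io_inj exists_io io_ofC ofC_io VP MP UP TP ex)
open Pool.Agent.DN

variable {n t : ℕ}

/-! ## The functions `E_b` -/

theorem u_tm_rp [SqN n t] {f : ℕ} (hf : Fok f) :
    RpI (fun v : OO n t => (f : OO n t) ∣ v - 1 ∧ Cop v 3) (3 * f) (tm n t f) (fun v : OO n t => v) := by
  refine ⟨fun α hα => w_tm hf hα, fun α hα β hβ h => w_tm_uni hf hα hβ ?_, ?_⟩
  · exact w_dvd3 (Dvd.intro _ rfl) h
  · rintro v ⟨hv1, hv2⟩
    obtain ⟨α, hα, h1⟩ := w_tm_ex hf hv2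
    refine ⟨α, hα, CV_cast_mul hf.cop.symm (by rwa [w_cast3]) ?_⟩
    have h2 := dvd_sub hv1 (w_tm hf hα).1
    rwa [sub_sub_sub_cancel_right] at h2

/-- `E_b` depends only on the class modulo `3 f`. -/
theorem u_E_ray [Ram3 n t] (hC6 : S_C6) {k f : ℕ} {m b b' : Ideal (OO n t)}
    (hm : FM f m) (hb : FB f b) (hb' : FB f b') (h : Ray (3 * f) b b') (r : ℚ) :
    etE f k m b r = etE f k m b' r := by
  have hf0 := hm.pos
  unfold etE
  refine Finset.sum_congr rfl fun α hα => ?_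
  obtain ⟨h1, h2⟩ := w_tm hm.toFok hα
  have h3 := v_cop3f h1 h2
  have hA := w_fb_sp hf0 h3
  rw [((hC6 n t f m _ hm (w_fb_mul hA hb)).1 _ (w_fb_mul hA hb')
    (V1_ray_mul (by omega) (V1_ray_refl (by omega) _) h)).2 (r / 3)]

/-- `E_(γ b)`, `γ = 1` modulo `f`, prime to `3`. -/
theorem u_E_mul [Ram3 n t] (hC6 : S_C6) {k f : ℕ}
    {m b : Ideal (OO n t)} (hm : FM f m) (hb : FB f b) {γ : OO n t} (h1 : (f : OO n t) ∣ γ - 1)
    (h2 : Cop γ 3) (r : ℚ) : (zs γ : Om) ^ k * etE f k m (sp γ * b) r = etE f k m b r := by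
  have hf0 := hm.pos
  have hc := v_cop3f h1 h2
  obtain ⟨δ, hδ, hγδ⟩ := cop_inv hc
  have hδ2 : Cop δ 3 := cop_dvd hδ (Dvd.intro _ rfl)
  have hδ1 : (f : OO n t) ∣ δ - 1 := by
    have h3 := CV_cast_dvd (Dvd.intro_left _ rfl : f ∣ 3 * f) hγδ
    have e : δ - 1 = (γ * δ - 1) - δ * (γ - 1) := by ring
    rw [e]
    exact dvd_sub h3 (dvd_mul_of_dvd_right h1 _)
  have hQ : ∀ {a : OO n t}, (f : OO n t) ∣ a - 1 → Cop a 3 → ∀ v : OO n t,
      ((f : OO n t) ∣ v - 1 ∧ Cop v 3) → ((f : OO n t) ∣ a * v - 1 ∧ Cop (a * v) 3) := by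
    rintro a ha1 ha2 v ⟨hv1, hv2⟩
    refine ⟨?_, cop_mul ha2 hv2⟩
    have e : a * v - 1 = a * (v - 1) + (a - 1) := by ring
    rw [e]
    exact dvd_add (dvd_mul_of_dvd_right hv1 _) ha1
  have hrp := u_tm_rp (n := n) (t := t) hm.toFok
  have hrp2 := hrp.mul hc hγδ (hQ h1 h2) (hQ hδ1 hδ2)
  have key := RpI.sum hrp2 hrp (fun v : OO n t => (zs v : Om) ^ k * etaM (3 * f) m (sp v * b) (r / 3)) ?_
  · unfold etE
    rw [Finset.mul_sum]
    refine Eq.trans ?_ key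
    refine Finset.sum_congr rfl fun α hα => ?_
    have e1 : sp α * (sp γ * b) = sp (γ * α) * b := by
      rw [← CV_sp_mul]
      ring
    have e2 : (zs (γ * α) : Om) = (zs γ : Om) * (zs α : Om) := by
      rw [(zO4 n t).2.2.2.2.2.2.2.2.2.2.2.2.2.2.1 γ α, Int.cast_mul]
    rw [e1, e2]
    ring
  · rintro v u ⟨hv1, hv2⟩ ⟨hu1, hu2⟩ hvu
    have h5 := w_dvd3 (Dvd.intro _ rfl) hvu
    have hv3 := v_cop3f hv1 hv2
    have hu3 := v_cop3f hu1 hu2
    change (zs v : Om) ^ k * etaM (3 * f) m (sp v * b) (r / 3) = (zs u : Om) ^ k * etaM (3 * f) m (sp u * b) (r / 3)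
    rw [w_zs_congr h5,
      ((hC6 n t f m _ hm (w_fb_mul (w_fb_sp hf0 hv3) hb)).1 _ (w_fb_mul (w_fb_sp hf0 hu3) hb)
      (V1_ray_mul (by omega) (V1_ray_congr (by omega) hv3 hu3 hvu) (V1_ray_refl (by omega) _))).2 (r / 3)]

/-! ## Residues -/

theorem sD_mp {P : Ideal ZZ} [Ram3 n t] (hT0 : S_T0) (hP : Ab3 P) : MP P (toO (sD n t)) ∧ toO (sD n t) ≠ 0 := by
  have hPp := hP.1.1
  have h1 := (hT0.2 n t P hP).1
  have h0 : toO (sD n t) ≠ 0 := by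
    intro h3
    have h4 := h1.ne_zero
    rw [h3] at h4
    norm_num at h4
  refine ⟨?_, h0⟩
  apply DI.MP.of_pow (n := 2)
  have e : toO (sD n t) ^ 2 = (toO (sD n t) ^ 2 / 3) * 3 := by
    field_simp
  rw [e]
  exact DI.MP.mul_left h1.1 hP.2

/-- `v = zs v` modulo `P`. -/
theorem zs_mp {P : Ideal ZZ} [Ram3 n t] (hT0 : S_T0) (hP : Ab3 P) (v : OO n t) : MP P (toO v - zs v) := by
  have hPp := hP.1.1
  obtain ⟨h1, h0⟩ := sD_mp (n := n) (t := t) hT0 hP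
  have h2 := (hT0.2 n t P hP).2.2.1 v
  have e : toO v - zs v = (toO v - zs v) / toO (sD n t) * toO (sD n t) := by
    rw [div_mul_cancel₀ _ h0]
  rw [e]
  exact DI.MP.mul_left h2 h1

theorem zs_unit {P : Ideal ZZ} [Ram3 n t] (hT0 : S_T0) (hP : Ab3 P) {v : OO n t} (hv : Cop v 3) :
    UP P (toO v) ∧ UP P (zs v : Om) ∧ (zs v : Om) ^ 2 = 1 ∧ MP P (toO v ^ 2 - 1) := by
  have hPp := hP.1.1
  have h1 := zs_mp hT0 hP v
  have h2 : UP P (zs v : Om) ∧ (zs v : Om) ^ 2 = 1 := by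
    rcases w_zs hv with h | h
    · rw [h, Int.cast_one]
      exact ⟨DI.UP.one, one_pow 2⟩
    · rw [h, Int.cast_neg, Int.cast_one]
      exact ⟨DI.UP.one.neg, by ring⟩
  have h3 := DI.UP.congr h2.1 h1
  refine ⟨h3, h2.1, h2.2, ?_⟩
  rw [← h2.2]
  exact v_mp_pow hPp h3.1 h2.1.1 h1 2

/-! ## The terms -/

/-- The term `χ(b) rO(1, b) (w4^k/3) E_b(r)`. -/
def Fb (f k : ℕ) (m : Ideal (OO n t)) (χ : Ideal (OO n t) → Om) (r : ℚ) (b : Ideal (OO n t)) : Om :=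
  χ b * rO ⊤ b * (w4 ^ k / 3 * etE f k m b r)

theorem xw_eq (f k : ℕ) (m : Ideal (OO n t)) (R : Finset (Ideal (OO n t)))
    (χ : Ideal (OO n t) → Om) (r : ℚ) : xw f k m R χ r = ∑ b ∈ R, Fb f k m χ r b := by
  unfold xw Fb
  rw [Finset.mul_sum]
  refine Finset.sum_congr rfl fun b _ => ?_
  ring

/-- The hypotheses of this part. -/
structure VH [Ram3 n t] (P : Ideal ZZ) (f M k : ℕ) (m : Ideal (OO n t)) (R : Finset (Ideal (OO n t)))
    (χ : Ideal (OO n t) → Om) : Prop where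
  hP : Ab3 P
  hk : k = 1 ∨ k = 2
  hm : FM f m
  hR : FR f R
  hRC : IsRC f R
  hM : IsLw f m R M
  hχ : IsChi (3 * f) χ
  hTy : Ty P f χ (k - 1)
  T0 : S_T0
  C1 : S_C1
  C6 : S_C6
  C9 : S_C9
  C10 : S_C10
  B7 : S_B7
  R1 : S_R1
  D2 : S_D2

variable [Ram3 n t] {P : Ideal ZZ} {f M k : ℕ} {m : Ideal (OO n t)} {R : Finset (Ideal (OO n t))}
  {χ : Ideal (OO n t) → Om}

theorem VH.k1 (h : VH P f M k m R χ) : 1 ≤ k := by
  rcases h.hk with hk | hk <;> omega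

theorem VH.M2 (h : VH P f M k m R χ) : 2 ≤ M := by
  have h1 := (w_lvd h.hM.lv).1
  have h2 := Nat.le_of_dvd h.hM.lv.pos h1
  have h3 := (w_fok h.hm.toFok).1
  omega

theorem VH.M3 (h : VH P f M k m R χ) : IsCoprime (3 : ℤ) (M : ℤ) := by
  have h1 := h.hM.lv.one
  refine (Int.prime_three.coprime_iff_not_dvd).2 ?_
  omega

/-- The framing is a unit at `P`. -/
theorem VH.rOtop (h : VH P f M k m R χ) {b : Ideal (OO n t)} (hb : FB f b) : UP P (rO ⊤ b) := by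
  have hb30 := v_G30 h.hm.toFok hb
  have h1 := (h.D2 n t P h.hP ⊤ v_G30_top).2.2.2.2.2.2 b hb.ne hb30.cop
  rwa [Ideal.mul_top] at h1

/-- Integrality for all classes. -/
theorem VH.E_vp (h : VH P f M k m R χ) {r : ℚ} (hr : r.den.Coprime M) {b : Ideal (OO n t)} (hb : FB f b) :
    VP P (w4 ^ k / 3 * etE f k m b r) := by
  have hPp := h.hP.1.1
  have hf0 := h.hm.pos
  obtain ⟨b', hb'R, h1⟩ := h.hRC.ex b hb.ne (CV_pri_dvd hb.prm (Dvd.intro_left _ rfl))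
  have hb' := h.hR b' hb'R
  obtain ⟨γ, h2, h3, h4⟩ := v_lift hf0 hb' hb (V1_ray_symm hf0 h1)
  have hγ := w_fb_sp hf0 (v_cop3f h2 h3)
  have h5 := ((h.C10 n t f M m b' h.hm hb' (w_lv h.hM.lv hb'R) k h.hk r hr).2 P h.hP).1
  have h6 := u_E_mul (k := k) h.C6 h.hm hb' h2 h3 r
  have h7 := (zs_unit h.T0 h.hP h3).2.1.pow k
  rw [u_E_ray h.C6 h.hm hb (w_fb_mul hγ hb') h4 r]
  rw [← h6] at h5
  have e : w4 ^ k / 3 * etE f k m (sp γ * b') r =
      ((zs γ : Om) ^ k)⁻¹ * (w4 ^ k / 3 * ((zs γ : Om) ^ k * etE f k m (sp γ * b') r)) := by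
    have := h7.ne_zero
    field_simp
  rw [e]
  exact h7.inv.1.mul h5

theorem VH.vp (h : VH P f M k m R χ) {r : ℚ} (hr : r.den.Coprime M) {b : Ideal (OO n t)} (hb : FB f b) :
    VP P (Fb f k m χ r b) := by
  have hPp := h.hP.1.1
  exact ((v_up h.hχ hPp hb).1.mul (h.rOtop hb).1).mul (h.E_vp hr hb)

theorem VH.xw_vp (h : VH P f M k m R χ) {r : ℚ} (hr : r.den.Coprime M) : VP P (xw f k m R χ r) := by
  have hPp := h.hP.1.1
  rw [xw_eq]
  exact DI.VP.sum _ _ fun b hb => h.vp hr (h.hR b hb)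

/-- The terms are class functions modulo `P`. -/
theorem VH.cls (h : VH P f M k m R χ) {r : ℚ} (hr : r.den.Coprime M) {b b' : Ideal (OO n t)} (hb : FB f b)
    (hb' : FB f b') (hbb : Ray f b b') : MP P (Fb f k m χ r b' - Fb f k m χ r b) := by
  have hPp := h.hP.1.1
  have hf0 := h.hm.pos
  have hok := h.hm.toFok
  obtain ⟨γ, h1, h2, h3⟩ := v_lift hf0 hb hb' hbb
  have hγc := v_cop3f h1 h2
  have hγ := w_fb_sp hf0 hγc
  have hγb := w_fb_mul hγ hb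
  have hE := u_E_mul (k := k) h.C6 h.hm hb h1 h2 r
  have hE' := u_E_ray (k := k) h.C6 h.hm hb' hγb h3 r
  have hχ1 : χ b' = χ (sp γ) * χ b := by rw [v_ray h.hχ hb' hγb h3, h.hχ.mul]
  obtain ⟨β, β', k1, k2, k3, k4, k5⟩ := V1_ray_one (by omega) h3
  have hdv : ∀ {v : OO n t}, ((3 * f : ℕ) : OO n t) ∣ v - 1 → (4 : OO n t) ∣ v - 1 := by
    intro v hv
    exact v_4 hok (CV_cast_dvd (Dvd.intro_left _ rfl) hv)
  have hγ0 : γ ≠ 0 := CV_ne_of_cop (by omega) hγc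
  have hβn : β ≠ 0 := CV_ne_of_cop (by omega) k1
  have hβ'n : β' ≠ 0 := CV_ne_of_cop (by omega) k2
  have hb30 := v_G30 hok hb
  have hb'30 := v_G30 hok hb'
  have hγb30 := v_G30 hok hγb
  have hβF := w_fb_sp hf0 k1
  have hβ'F := w_fb_sp hf0 k2
  have e1 := v_rO_mul h.R1 h.B7 v_G30_top hb'30 hβn (hdv k3) (v_G30 hok (w_fb_mul hβF hb'))
  have e2 := v_rO_mul h.R1 h.B7 v_G30_top hγb30 hβ'n (hdv k4) (v_G30 hok (w_fb_mul hβ'F hγb))
  rw [v_rO_mul h.R1 h.B7 v_G30_top hb30 hγ0 (v_4 hok h1) hγb30] at e2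
  rw [k5, e2] at e1
  -- units
  obtain ⟨hT1, hT2, hT3, -⟩ := zs_unit h.T0 h.hP h2
  have hz : UP P ((zs γ : Om) ^ k) := hT2.pow k
  have hone : ∀ {v : OO n t}, ((3 * f : ℕ) : OO n t) ∣ v - 1 → MP P (toO v - 1) := by
    rintro v ⟨w, hw⟩
    have h6 : v = 1 + ((3 * f : ℕ) : OO n t) * w := by rw [← hw]; ring
    rw [h6, toO_add, toO_one, toO_mul, toO_nat, add_sub_cancel_left]
    have h7 : (((3 * f : ℕ)) : Om) = 3 * (f : Om) := by push_cast; ring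
    rw [h7]
    exact DI.MP.mul_right (DI.MP.mul_right h.hP.2 (DI.VP.nat f)) (toO_VP w)
  have hβu : UP P (toO β) := DI.UP.congr DI.UP.one (hone k3)
  have hz0 := hz.ne_zero
  have hβ0 := hβu.ne_zero
  -- the quotient
  have e3 : Fb f k m χ r b' =
      (χ (sp γ) * (toO β' * toO γ * (toO β)⁻¹) * ((zs γ : Om) ^ k)⁻¹) * Fb f k m χ r b := by
    unfold Fb
    have e4 : rO ⊤ b' = toO β' * toO γ * (toO β)⁻¹ * rO ⊤ b := by
      field_simp
      linear_combination -e1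
    rw [hχ1, hE', e4, ← hE]
    field_simp
  have e5 : Fb f k m χ r b' - Fb f k m χ r b =
      (χ (sp γ) * (toO β' * toO γ * (toO β)⁻¹) * ((zs γ : Om) ^ k)⁻¹ - 1) * Fb f k m χ r b := by
    rw [e3]
    ring
  rw [e5]
  refine DI.MP.mul_right ?_ (h.vp hr hb)
  -- the factor
  have hzg : MP P ((zs γ : Om) - toO γ) := CV_mp_symm (zs_mp h.T0 h.hP γ)
  have hγv : VP P (toO γ) := toO_VP γ
  have hpow : MP P ((zs γ : Om) ^ k - toO γ ^ k) := v_mp_pow hPp hT2.1 hγv hzg k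
  have hty := h.hTy γ h1 h2
  have hk1 : toO γ ^ k = toO γ ^ (k - 1) * toO γ := by
    rw [← pow_succ, Nat.sub_add_cancel h.k1]
  -- numerator minus denominator
  have hnum : MP P (χ (sp γ) * (toO β' * toO γ) - (zs γ : Om) ^ k * toO β) := by
    have f1 : MP P (χ (sp γ) * (toO β' * toO γ) - toO γ ^ (k - 1) * (1 * toO γ)) := by
      refine CV_mp_mul hPp ((toO_VP β').mul hγv) (hγv.pow _) hty ?_
      exact CV_mp_mul hPp hγv DI.VP.one (hone k4) (CV_mp_refl hPp _)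
    have f2 : MP P ((zs γ : Om) ^ k * toO β - toO γ ^ k * 1) :=
      CV_mp_mul hPp hβu.1 (hγv.pow _) hpow (hone k3)
    have f3 := f1.sub f2
    rw [hk1] at f3
    have e7 : χ (sp γ) * (toO β' * toO γ) - toO γ ^ (k - 1) * (1 * toO γ) -
        ((zs γ : Om) ^ k * toO β - toO γ ^ (k - 1) * toO γ * 1) =
        χ (sp γ) * (toO β' * toO γ) - (zs γ : Om) ^ k * toO β := by ring
    rwa [e7] at f3
  have e8 : χ (sp γ) * (toO β' * toO γ * (toO β)⁻¹) * ((zs γ : Om) ^ k)⁻¹ - 1 =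
      (χ (sp γ) * (toO β' * toO γ) - (zs γ : Om) ^ k * toO β) * ((toO β)⁻¹ * ((zs γ : Om) ^ k)⁻¹) := by
    field_simp
  rw [e8]
  exact DI.MP.mul_right hnum (hβu.inv.1.mul hz.inv.1)

/-- The sum over the classes, translated. -/
theorem VH.sum (h : VH P f M k m R χ) {r : ℚ} (hr : r.den.Coprime M) {c : Ideal (OO n t)} (hc : FB f c) :
    MP P (∑ b ∈ R, Fb f k m χ r (c * b) - ∑ b ∈ R, Fb f k m χ r b) := by
  classical
  have hPp := h.hP.1.1
  have hf0 := h.hm.pos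
  have hex : ∀ b : Ideal (OO n t), ∃ b' : Ideal (OO n t), b ∈ R → b' ∈ R ∧ Ray f (c * b) b' := by
    intro b
    by_cases hb : b ∈ R
    · have h1 := w_fb_mul hc (h.hR b hb)
      obtain ⟨b', hb', h2⟩ := h.hRC.ex (c * b) h1.ne (CV_pri_dvd h1.prm (Dvd.intro_left _ rfl))
      exact ⟨b', fun _ => ⟨hb', h2⟩⟩
    · exact ⟨⊤, fun h1 => absurd h1 hb⟩
  choose π hπ using hex
  obtain ⟨h71, h72, h73, h74, h75, -⟩ := aO7 n t f hf0
  have hmaps : Set.MapsTo π (R : Set (Ideal (OO n t))) R := fun b hb => (hπ b hb).1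
  have hinj : Set.InjOn π (R : Set (Ideal (OO n t))) := by
    intro b hb b' hb' hbb
    have h1 := (hπ b hb).2
    have h2 := (hπ b' hb').2
    rw [← hbb] at h2
    have h3 := h73 _ _ _ h1 (h72 _ _ h2)
    refine h.hRC.uni b hb b' hb' (h75 b b' c hc.ne (CV_pri_dvd hc.prm (Dvd.intro_left _ rfl)) ?_)
    rw [mul_comm b c, mul_comm b' c]
    exact h3
  have hsurj : Set.SurjOn π (R : Set (Ideal (OO n t))) R :=
    Finset.surjOn_of_injOn_of_card_le π hmaps hinj le_rfl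
  have e1 : ∑ b ∈ R, Fb f k m χ r b = ∑ b ∈ R, Fb f k m χ r (π b) :=
    (Finset.sum_nbij π hmaps hinj hsurj fun b _ => rfl).symm
  rw [e1, ← Finset.sum_sub_distrib]
  refine DI.MP.sum _ _ fun b hb => ?_
  exact CV_mp_symm (h.cls hr (w_fb_mul hc (h.hR b hb)) (h.hR _ (hπ b hb).1) (hπ b hb).2)

end Pool.Agent.DM.DU
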