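import Pool.Agent.Lib.DU.CV.V1

/-!
# Theorem DU, part CV, module V2: translation, the elements with `3 ∣ b`, `9 M ∣ c`, and `(1 0; 3M 1)` (author helper97)
-/

set_option autoImplicit false

open scoped Pointwise nonZeroDivisors

noncomputable section

namespace Pool.Agent.DM.DU

open Pool.Agent.MuZ Pool.Agent.FW NumberField IsDedekindDomain
open Pool.Agent.DI (io ofC io_inj exists_io io_ofC ofC_io VP MP UP TP ex)
open Pool.Agent.DN
open Pool.Agent.DR (cz cadd cadd1 cneg cmob)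

variable {n t : ℕ}

/-! ## The cube root of unity -/

theorem zet3_prim : IsPrimitiveRoot (zet 3) 3 := by
  have h1 : IsPrimitiveRoot (io (zet 3)) 3 := by
    rw [CV_io_zet (by norm_num)]
    have h2 := Complex.isPrimitiveRoot_exp 3 (by norm_num)
    have e : ex (1 / ((3 : ℕ) : ℂ)) = Complex.exp (2 * Real.pi * Complex.I / ((3 : ℕ) : ℂ)) := by
      unfold ex
      congr 1
      ring
    rw [e]
    exact h2
  exact h1.of_map_of_injective (f := io) io_inj

theorem zet3_ne1 : zet 3 ≠ 1 := zet3_prim.ne_one (by norm_num)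

theorem zet3_sq : zet 3 * zet 3 + zet 3 + 1 = 0 := by
  have h1 := CV_zet_pow (q := 3) (by norm_num)
  have h2 : (zet 3 - 1) * (zet 3 * zet 3 + zet 3 + 1) = 0 := by
    have e : (zet 3 - 1) * (zet 3 * zet 3 + zet 3 + 1) = zet 3 ^ 3 - 1 := by ring
    rw [e, h1, sub_self]
  rcases mul_eq_zero.1 h2 with h | h
  · exact absurd (sub_eq_zero.1 h) zet3_ne1
  · exact h

theorem zet3_u {P : Ideal ZZ} (hP : Ab3 P) : UP P (zet 3) ∧ MP P (zet 3 - 1) := by
  have hPp := hP.1.1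
  have h1 : UP P (zet 3) := CV_up_of_pow hPp (by norm_num) (CV_zet_pow (q := 3) (by norm_num))
  refine ⟨h1, ?_⟩
  apply DI.MP.of_pow (n := 2)
  have e : (zet 3 - 1) ^ 2 = 3 * (-zet 3) := by
    linear_combination zet3_sq
  rw [e]
  exact DI.MP.mul_right hP.2 h1.1.neg

theorem zet3_zpow {P : Ideal ZZ} (hP : Ab3 P) (j : ℤ) : UP P (zet 3 ^ j) ∧ MP P (zet 3 ^ j - 1) := by
  have hPp := hP.1.1
  obtain ⟨h1, h2⟩ := zet3_u hP
  refine ⟨CV_up_zpow hPp h1 j, ?_⟩
  have hn : ∀ i : ℕ, MP P (zet 3 ^ i - 1) := by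
    intro i
    have h3 := v_mp_pow hPp h1.1 DI.VP.one h2 i
    rwa [one_pow] at h3
  rcases Int.eq_nat_or_neg j with ⟨i, rfl | rfl⟩
  · rw [zpow_natCast]
    exact hn i
  · rw [zpow_neg, zpow_natCast]
    have h4 := h1.pow i
    have h0 := h4.ne_zero
    have e : (zet 3 ^ i)⁻¹ - 1 = -((zet 3 ^ i - 1) * (zet 3 ^ i)⁻¹) := by
      field_simp
      ring
    rw [e]
    exact (DI.MP.mul_right (hn i) h4.inv.1).neg

/-- `(ζ^j - 1)/(ζ - 1) = j` modulo `P`. -/
theorem zet3_div {P : Ideal ZZ} (hP : Ab3 P) (j : ℤ) : MP P ((zet 3 ^ j - 1) / (zet 3 - 1) - j) := by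
  have hPp := hP.1.1
  have h0 : zet 3 - 1 ≠ 0 := sub_ne_zero.2 zet3_ne1
  have hz := CV_zet_ne (q := 3) (by norm_num)
  induction j using Int.induction_on with
  | zero =>
    rw [zpow_zero, sub_self, zero_div, Int.cast_zero, sub_zero]
    exact DI.MP.zero
  | succ i ih =>
    have e : (zet 3 ^ ((i : ℤ) + 1) - 1) / (zet 3 - 1) - ((((i : ℤ) + 1 : ℤ)) : Om) =
        ((zet 3 ^ (i : ℤ) - 1) / (zet 3 - 1) - (((i : ℤ)) : Om)) + (zet 3 ^ (i : ℤ) - 1) := by
      rw [zpow_add₀ hz, zpow_one]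
      push_cast
      field_simp
      ring
    rw [e]
    exact ih.add (zet3_zpow hP _).2
  | pred i ih =>
    have e : (zet 3 ^ (-(i : ℤ) - 1) - 1) / (zet 3 - 1) - (((-(i : ℤ) - 1 : ℤ)) : Om) =
        ((zet 3 ^ (-(i : ℤ)) - 1) / (zet 3 - 1) - (((-(i : ℤ))  : ℤ) : Om)) - (zet 3 ^ (-(i : ℤ) - 1) - 1) := by
      rw [zpow_sub₀ hz, zpow_one]
      generalize zet 3 ^ (-(i : ℤ)) = y
      push_cast
      field_simp
      ring
    rw [e]
    exact ih.sub (zet3_zpow hP _).2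

variable [Ram3 n t] {P : Ideal ZZ} {f M k : ℕ} {m : Ideal (OO n t)} {R : Finset (Ideal (OO n t))}
  {χ : Ideal (OO n t) → Om}

theorem c3 (h : IsCoprime (3 : ℤ) (M : ℤ)) (hM : 2 ≤ M) {r : ℚ} (hr : r.den.Coprime M) :
    (r / 3).den.Coprime M := by
  have h1 : (r.num : ℚ) / (r.den : ℚ) = r := Rat.num_div_den r
  refine CV_den_coprime (p := r.num) (q := r.den * 3) ?_ hM ?_
  · exact IsCoprime.mul_left (Nat.isCoprime_iff_coprime.2 hr) h
  · push_cast
    rw [← div_div, h1]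

/-! ## The translation -/

theorem Nm3 {v : OO n t} (hv : Cop v 3) : (3 : ℤ) ∣ Nm v - 1 := (zO4 n t).2.2.2.2.2.2.2.2.2.2.1 v hv

/-- The translation of `E_b`. -/
theorem VH.E_T (h : VH P f M k m R χ) {b : Ideal (OO n t)} (hb : FB f b) {r : ℚ} (hr : r.den.Coprime M) :
    etE f k m b (r + 1) = zet 3 ^ NI (m * b) * etE f k m b r := by
  have hf0 := h.hm.pos
  have hNM := (w_lvd h.hM.lv).2.1
  have hr3 := Nat.Coprime.coprime_dvd_right hNM (c3 h.M3 h.M2 hr)
  unfold etE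
  rw [Finset.mul_sum]
  refine Finset.sum_congr rfl fun α hα => ?_
  obtain ⟨h1, h2⟩ := w_tm h.hm.toFok hα
  have hαb := w_fb_mul (w_fb_sp hf0 (v_cop3f h1 h2)) hb
  have h3 := ((h.C6 n t f m _ h.hm hαb).2.2.1 (r / 3) hr3).2
  have e : (r + 1) / 3 = r / 3 + 1 / 3 := by ring
  have e2 : zet 3 ^ NI (m * (sp α * b)) = zet 3 ^ NI (m * b) := by
    have h4 : (3 : ℤ) ∣ (NI (m * (sp α * b)) : ℤ) - (NI (m * b) : ℤ) := by
      rw [CV_NI_mul, CV_NI_mul, CV_NI_mul]
      push_cast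
      rw [CV_NI_sp]
      obtain ⟨x, hx⟩ := Nm3 h2
      exact ⟨(NI m : ℤ) * (NI b : ℤ) * x, by linear_combination ((NI m : ℤ) * (NI b : ℤ)) * hx⟩
    have h5 := CV_zet_congr (q := 3) (by norm_num) h4
    rwa [zpow_natCast, zpow_natCast] at h5
  rw [e, h3, e2]
  ring

theorem VH.xw_T (h : VH P f M k m R χ) {r : ℚ} (hr : r.den.Coprime M) :
    MP P (xw f k m R χ (r + 1) - xw f k m R χ r) := by
  have hPp := h.hP.1.1
  rw [xw_eq, xw_eq, ← Finset.sum_sub_distrib]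
  refine DI.MP.sum _ _ fun b hb => ?_
  have e : Fb f k m χ (r + 1) b - Fb f k m χ r b = (zet 3 ^ NI (m * b) - 1) * Fb f k m χ r b := by
    unfold Fb
    rw [h.E_T (h.hR b hb) hr]
    ring
  rw [e]
  refine DI.MP.mul_right ?_ (h.vp hr (h.hR b hb))
  have h1 := (zet3_zpow h.hP (NI (m * b) : ℤ)).2
  rwa [zpow_natCast] at h1

/-! ## The elements with `3 ∣ b`, `9 M ∣ c` -/

/-- The function `E_b`. -/
theorem VH.E_g (h : VH P f M k m R χ) {a b' c d : ℤ} (hdet : a * d - b' * c = 1) (hb3 : (3 : ℤ) ∣ b')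
    (hc9 : (9 * M : ℤ) ∣ c) {b : Ideal (OO n t)} (hb : FB f b) {r : ℚ} (hr : r.den.Coprime M) :
    FB f (sp (a : OO n t)) ∧
    etE f k m b ((a * r + b') / (c * r + d)) =
      (eps n t d : Om) * (rO b (sp (a : OO n t) * b) / a) *
        (etE f k m (sp (a : OO n t) * b) r - etE f k m (sp (a : OO n t) * b) 0) +
      etE f k m b (b' / d) := by
  have hf0 := h.hm.pos
  have hok := h.hm.toFok
  obtain ⟨R2, hR2, hRC2, hLv2⟩ := h.hM.ex
  have hM2 := h.M2
  have hM3 := h.M3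
  obtain ⟨b1, hb1⟩ := hb3
  obtain ⟨c1, hc1⟩ := hc9
  have hG : G0 M a b' c d := ⟨hdet, ⟨9 * c1, by rw [hc1]; ring⟩⟩
  obtain ⟨hdM, haM, hne, -⟩ := CV_mob hM2 hG hr
  have haf : IsCoprime a (f : ℤ) := haM.of_isCoprime_of_dvd_right (by exact_mod_cast (w_lvd hLv2).1)
  have ha3 : IsCoprime a (3 : ℤ) := ⟨d, -(b' * 3 * M * c1), by rw [← hG.1, hc1]; ring⟩
  have ha3f : Cop (a : OO n t) (3 * f) := by
    apply CV_cop_int
    push_cast
    exact ha3.mul_right haf
  have hA : FB f (sp (a : OO n t)) := w_fb_sp hf0 ha3f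
  refine ⟨hA, ?_⟩
  have hG27 : G0 (27 * M) a b1 (3 * c) d := by
    refine ⟨?_, c1, ?_⟩
    · rw [← hG.1, hb1]
      ring
    · rw [hc1]
      ring
  have hr2 : (r / 3).den.Coprime M := c3 hM3 hM2 hr
  -- the terms
  have key : ∀ α ∈ tm n t f, etaM (3 * f) m (sp α * b) (((a * r + b') / (c * r + d)) / 3) =
      (eps n t d : Om) * (rO b (sp (a : OO n t) * b) / a) *
        (etaM (3 * f) m (sp α * (sp (a : OO n t) * b)) (r / 3) -
          etaM (3 * f) m (sp α * (sp (a : OO n t) * b)) (0 / 3)) +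
      etaM (3 * f) m (sp α * b) ((b' / d) / 3) := by
    intro α hα
    obtain ⟨hα1, hα2⟩ := w_tm hok hα
    have hα3 := v_cop3f hα1 hα2
    have hαF := w_fb_sp hf0 hα3
    have hα0 : α ≠ 0 := CV_ne_of_cop (by omega) hα3
    have hαb := w_fb_mul hαF hb
    obtain ⟨b2, hb2R, hray⟩ := hRC2.ex (sp α * b) hαb.ne hαb.prm
    have hb2F := hR2 b2 hb2R
    obtain ⟨-, hd0, -, h5⟩ := h.C1 n t f M m b2 h.hm hb2F (w_lv hLv2 hb2R) a b1 (3 * c) d hG27
    obtain ⟨-, h6⟩ := h5 (r / 3) hr2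
    have hray' : Ray (3 * f) (sp α * (sp (a : OO n t) * b)) (sp (a : OO n t) * b2) := by
      have h7 := V1_ray_mul (F := 3 * f) (by omega) (V1_ray_refl (by omega) (sp (a : OO n t))) hray
      have e : sp (a : OO n t) * (sp α * b) = sp α * (sp (a : OO n t) * b) := by ring
      rwa [e] at h7
    have hab := w_fb_mul hαF (w_fb_mul hA hb)
    have e1 : ∀ s : ℚ, etaM (3 * f) m (sp α * b) s = etaM (3 * f) m b2 s := fun s =>
      ((h.C6 n t f m _ h.hm hαb).1 _ hb2F hray).2 s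
    have e2 : ∀ s : ℚ, etaM (3 * f) m (sp α * (sp (a : OO n t) * b)) s =
        etaM (3 * f) m (sp (a : OO n t) * b2) s := fun s =>
      ((h.C6 n t f m _ h.hm hab).1 _ (w_fb_mul hA hb2F) hray').2 s
    -- the framings
    obtain ⟨β, β', k1, k2, k3, k4, k5⟩ := V1_ray_one (by omega) hray
    have hβ0 : β ≠ 0 := CV_ne_of_cop (by omega) k1
    have hβ'0 : β' ≠ 0 := CV_ne_of_cop (by omega) k2
    have k3' := v_4 hok (CV_cast_dvd (Dvd.intro_left _ rfl : f ∣ 3 * f) k3)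
    have k4' := v_4 hok (CV_cast_dvd (Dvd.intro_left _ rfl : f ∣ 3 * f) k4)
    have k6 : sp (β * α) * b = sp β' * b2 := by
      rw [← k5, ← CV_sp_mul]
      ring
    have k7 : (4 : OO n t) ∣ β * α - 1 := by
      have e : β * α - 1 = β * (α - 1) + (β - 1) := by ring
      rw [e]
      exact dvd_add (dvd_mul_of_dvd_right (v_4 hok hα1) _) k3'
    have e3 := v_rO_ratio h.R1 h.B7 (v_G30 hok hA) (v_G30 hok hb) (v_G30 hok hb2F)
      (mul_ne_zero hβ0 hα0) hβ'0 k7 k4' k6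
    have e4 : ((a * r + b') / (c * r + d)) / 3 = (a * (r / 3) + b1) / (((3 * c : ℤ) : ℚ) * (r / 3) + d) := by
      have e5 : ((3 * c : ℤ) : ℚ) * (r / 3) + d = c * r + d := by
        push_cast
        ring
      rw [e5, hb1]
      push_cast
      ring
    have hd0' : (d : ℚ) ≠ 0 := by exact_mod_cast hd0
    have e5 : ((b' : ℚ) / d) / 3 = b1 / d := by
      rw [hb1]
      push_cast
      ring
    rw [e1, e1, e2, e2, e3, e4, e5, h6, zero_div]
  unfold etE
  rw [← Finset.sum_sub_distrib, Finset.mul_sum, ← Finset.sum_add_distrib]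
  refine Finset.sum_congr rfl fun α hα => ?_
  rw [key α hα]
  ring

/-- The character `ψ(d) = eps(d) d χ(d)`, `d` prime to `3 M`. -/
def ps (χ : Ideal (OO n t) → Om) (d : ℤ) : Om := (eps n t d : Om) * d * χ (sp (d : OO n t))

/-- The transformation of the first half of the symbol. -/
theorem VH.g (h : VH P f M k m R χ) {a b' c d : ℤ} (hdet : a * d - b' * c = 1) (hb3 : (3 : ℤ) ∣ b')
    (hc9 : (9 * M : ℤ) ∣ c) {r : ℚ} (hr : r.den.Coprime M) :
    VP P (ps χ d) ∧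
    MP P (xw f k m R χ ((a * r + b') / (c * r + d)) - xw f k m R χ (b' / d) -
      ps χ d * (xw f k m R χ r - xw f k m R χ 0)) := by
  have hPp := h.hP.1.1
  have hf0 := h.hm.pos
  have hok := h.hm.toFok
  have hLv := h.hM.lv
  have hfM := (w_lvd hLv).1
  have hM2 := h.M2
  have hM3 := h.M3
  have hA := (h.E_g hdet hb3 hc9 (w_fb_top (n := n) (t := t) f) hr).1
  have hc3 : (3 : ℤ) ∣ c := dvd_trans ⟨3 * M, by ring⟩ hc9
  have hcM : (M : ℤ) ∣ c := dvd_trans ⟨9, by ring⟩ hc9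
  have ha3 : ¬ (3 : ℤ) ∣ a := by
    intro ha
    have h6 : (3 : ℤ) ∣ 1 := by
      rw [← hdet]
      exact dvd_sub (Dvd.dvd.mul_right ha d) (Dvd.dvd.mul_left hc3 b')
    omega
  have ha0 : a ≠ 0 := by
    rintro rfl
    exact ha3 (dvd_zero _)
  have haO : (a : Om) ≠ 0 := by exact_mod_cast ha0
  have hau := w_up hPp h.hP.2 ha3
  -- the characters
  have hχa := v_up h.hχ hPp hA
  have h1 : χ (sp (a : OO n t)) * χ (sp (d : OO n t)) = 1 := by
    rw [← h.hχ.mul, CV_sp_mul, ← v_top h.hχ hPp]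
    have hmd : ((3 * f : ℕ) : OO n t) ∣ (a : OO n t) * (d : OO n t) - 1 := by
      have e : (a : OO n t) * (d : OO n t) - 1 = ((a * d - 1 : ℤ) : OO n t) := by push_cast; ring
      rw [e, nat_dvd_iff, re_int, im_int]
      refine ⟨?_, dvd_zero _⟩
      have hfM' : (f : ℤ) ∣ (M : ℤ) := by exact_mod_cast hfM
      have e2 : a * d - 1 = b' * c := by linear_combination hdet
      push_cast
      rw [e2]
      refine Dvd.dvd.mul_left (IsCoprime.mul_dvd ?_ hc3 (dvd_trans hfM' hcM)) _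
      exact hM3.of_isCoprime_of_dvd_right hfM'
    have h3 : Cop ((a : OO n t) * (d : OO n t)) (3 * f) := CV_cop_of_dvd hmd
    rw [v_ray h.hχ (w_fb_sp hf0 h3) (w_fb_top f) ?_]
    have h4 := V1_ray_congr (by omega) h3 (cop_one (3 * f)) hmd
    rwa [CV_sp_one] at h4
  have hχ0 := hχa.ne_zero
  have hdu : UP P (χ (sp (d : OO n t))) := by
    have e : χ (sp (d : OO n t)) = (χ (sp (a : OO n t)))⁻¹ := by
      field_simp
      linear_combination h1
    rw [e]
    exact hχa.inv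
  have hi : ∀ j : ℤ, VP P (j : Om) := fun j => DI.VP.int j
  refine ⟨((hi _).mul (hi _)).mul hdu.1, ?_⟩
  -- the sums
  have e1 : xw f k m R χ ((a * r + b') / (c * r + d)) - xw f k m R χ (b' / d) =
      ((eps n t d : Om) * (a : Om)⁻¹ * χ (sp (d : OO n t))) *
        (∑ b ∈ R, Fb f k m χ r (sp (a : OO n t) * b) - ∑ b ∈ R, Fb f k m χ 0 (sp (a : OO n t) * b)) := by
    rw [xw_eq, xw_eq, ← Finset.sum_sub_distrib, ← Finset.sum_sub_distrib, Finset.mul_sum]
    refine Finset.sum_congr rfl fun b hb => ?_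
    have hbF := h.hR b hb
    have h2 := (h.E_g hdet hb3 hc9 hbF hr).2
    have hb30 := v_G30 hok hbF
    have hab30 := v_G30_mul (v_G30 hok hA) hb30
    have h3 : rO ⊤ (sp (a : OO n t) * b) = rO ⊤ b * rO b (sp (a : OO n t) * b) := by
      obtain ⟨k1, k2, k3⟩ := v_rO h.R1 v_G30_top hab30
      obtain ⟨k4, -, k6⟩ := v_rO h.R1 v_G30_top hb30
      obtain ⟨k7, -, -⟩ := v_rO h.R1 hb30 hab30
      apply io_inj
      rw [map_mul, k1, k4, k7]
      field_simp
    have h4 : χ b = χ (sp (d : OO n t)) * χ (sp (a : OO n t) * b) := by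
      rw [h.hχ.mul]
      linear_combination (-χ b) * h1
    unfold Fb
    rw [h2, h3]
    have e3 : ∀ X : Om, χ b * X = χ (sp (d : OO n t)) * χ (sp (a : OO n t) * b) * X := by
      intro X
      rw [← h4]
    rw [mul_assoc (χ b), mul_assoc (χ b), e3, e3]
    field_simp
    ring
  rw [e1]
  have hz : (0 : ℚ).den.Coprime M := by simp
  have s1 := h.sum hr hA
  have s2 := h.sum hz hA
  have hS : MP P ((∑ b ∈ R, Fb f k m χ r (sp (a : OO n t) * b) -
      ∑ b ∈ R, Fb f k m χ 0 (sp (a : OO n t) * b)) - (xw f k m R χ r - xw f k m R χ 0)) := by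
    have h5 := s1.sub s2
    rw [xw_eq, xw_eq]
    have e : ∀ x y z w : Om, x - y - (z - w) = x - z - (y - w) := fun x y z w => by ring
    rwa [e] at h5
  have hfac : MP P ((eps n t d : Om) * (a : Om)⁻¹ * χ (sp (d : OO n t)) - ps χ d) := by
    have h6 : MP P ((a : Om)⁻¹ - d) := by
      have e2 : (a : Om) * d - b' * c = 1 := by exact_mod_cast congrArg (fun x : ℤ => (x : Om)) hdet
      have e : (a : Om)⁻¹ - d = -((b' : Om) * (a : Om)⁻¹ * c) := by
        field_simp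
        linear_combination -e2
      rw [e]
      exact (DI.MP.mul_left ((hi _).mul hau.inv.1) (w_mp hPp h.hP.2 hc3)).neg
    have e : (eps n t d : Om) * (a : Om)⁻¹ * χ (sp (d : OO n t)) - ps χ d =
        ((a : Om)⁻¹ - d) * ((eps n t d : Om) * χ (sp (d : OO n t))) := by
      unfold ps
      ring
    rw [e]
    exact DI.MP.mul_right h6 ((hi _).mul hdu.1)
  have hv1 : VP P (∑ b ∈ R, Fb f k m χ r (sp (a : OO n t) * b) -
      ∑ b ∈ R, Fb f k m χ 0 (sp (a : OO n t) * b)) := by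
    refine DI.VP.sub (DI.VP.sum _ _ fun b hb => h.vp hr (w_fb_mul hA (h.hR b hb)))
      (DI.VP.sum _ _ fun b hb => h.vp hz (w_fb_mul hA (h.hR b hb)))
  exact CV_mp_mul hPp hv1 (((hi _).mul (hi _)).mul hdu.1) hfac hS

/-- The character depends only on the class modulo `3 M`, up to a multiple of `3`. -/
theorem VH.ps_congr (h : VH P f M k m R χ) {d e : ℤ} (hd : IsCoprime d (3 * M : ℤ))
    (hde : (3 * M : ℤ) ∣ d - e) : VP P (ps χ d) ∧ VP P (ps χ e) ∧ MP P (ps χ d - ps χ e) := by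
  have hPp := h.hP.1.1
  have hf0 := h.hm.pos
  have hLv := h.hM.lv
  have hfM := (w_lvd hLv).1
  have hfM' : (f : ℤ) ∣ (M : ℤ) := by exact_mod_cast hfM
  have h4f : (4 : ℤ) ∣ (f : ℤ) := by exact_mod_cast (w_fok h.hm.toFok).2.2.1
  have hi : ∀ j : ℤ, VP P (j : Om) := fun j => DI.VP.int j
  have he : IsCoprime e (3 * M : ℤ) := by
    obtain ⟨s, hs⟩ := hde
    have e1 : e = d + 3 * M * (-s) := by linear_combination -hs
    rw [e1]
    exact (IsCoprime.add_mul_left_left_iff).2 hd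
  have h3fM : (3 * f : ℤ) ∣ (3 * M : ℤ) := mul_dvd_mul_left 3 hfM'
  have hcop : ∀ {x : ℤ}, IsCoprime x (3 * M : ℤ) → Cop (x : OO n t) (3 * f) ∧ Odd x ∧
      IsCoprime x (Dk n t : ℤ) := by
    intro x hx
    have h1 : IsCoprime x (3 * f : ℤ) := hx.of_isCoprime_of_dvd_right h3fM
    refine ⟨by apply CV_cop_int; push_cast; exact h1, ?_, ?_⟩
    · have h2 : IsCoprime x (2 : ℤ) := h1.of_isCoprime_of_dvd_right
        (dvd_trans (dvd_trans ⟨2, by norm_num⟩ h4f) (Dvd.intro_left _ rfl))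
      rw [← Int.not_even_iff_odd]
      intro h4
      have h5 : IsUnit (2 : ℤ) := h2.isUnit_of_dvd' h4.two_dvd dvd_rfl
      exact absurd (Int.isUnit_iff.1 h5) (by norm_num)
    · obtain ⟨D', hD, -⟩ := D3 (n := n) (t := t)
      have h2 : D' ∣ M := by
        have h3 := (w_lvd hLv).2.2.1
        rwa [hD, Nat.mul_div_cancel_left _ (by norm_num : 0 < 3)] at h3
      rw [hD]
      push_cast
      exact hx.of_isCoprime_of_dvd_right (mul_dvd_mul_left 3 (by exact_mod_cast h2))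
  obtain ⟨c1, c2, c4⟩ := hcop hd
  obtain ⟨c5, c6, c7⟩ := hcop he
  have hX1 := (v_up h.hχ hPp (w_fb_sp hf0 c1)).1
  have hX2 := (v_up h.hχ hPp (w_fb_sp hf0 c5)).1
  have e1 : χ (sp (d : OO n t)) = χ (sp (e : OO n t)) := by
    refine v_ray h.hχ (w_fb_sp hf0 c1) (w_fb_sp hf0 c5) (V1_ray_congr (by omega) c1 c5 ?_)
    have e2 : (d : OO n t) - (e : OO n t) = ((d - e : ℤ) : OO n t) := by push_cast; ring
    rw [e2, nat_dvd_iff, re_int, im_int]
    refine ⟨?_, dvd_zero _⟩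
    push_cast
    exact dvd_trans h3fM hde
  have e2 : eps n t d = eps n t e := by
    refine (C.tEch n t).2.1 d e c2 c6 c4 (dvd_trans ?_ hde)
    obtain ⟨D', hD, -⟩ := D3 (n := n) (t := t)
    have h2 : D' * f ∣ M := by
      have h3 := hLv.dvd
      unfold lev at h3
      rw [hD, Nat.mul_div_cancel_left _ (by norm_num : 0 < 3)] at h3
      refine dvd_trans ?_ h3
      refine Dvd.dvd.mul_right (mul_dvd_mul_left _ (dvd_pow_self f (by norm_num))) _
    rw [hD]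
    push_cast
    have h5 : (D' * f : ℤ) ∣ (M : ℤ) := by exact_mod_cast h2
    obtain ⟨x, hx⟩ := h4f
    obtain ⟨y, hy⟩ := h5
    rw [hx] at hy
    exact ⟨x * y, by rw [hy]; ring⟩
  refine ⟨((hi _).mul (hi _)).mul hX1, ((hi _).mul (hi _)).mul hX2, ?_⟩
  have e3 : ps χ d - ps χ e = (((d - e : ℤ)) : Om) * ((eps n t e : Om) * χ (sp (e : OO n t))) := by
    unfold ps
    rw [e1, e2]
    push_cast
    ring
  rw [e3]
  exact DI.MP.mul_right (w_mp hPp h.hP.2 (dvd_trans ⟨M, rfl⟩ hde)) ((hi _).mul hX2)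

/-- `(1 0; 3M 1)`. -/
theorem VH.U3 (h : VH P f M k m R χ) {r : ℚ} (hr : r.den.Coprime M) :
    xw f k m R χ (r / (3 * M * r + 1)) = xw f k m R χ r := by
  rw [xw_eq, xw_eq]
  refine Finset.sum_congr rfl fun b hb => ?_
  have h1 := ((h.C9 n t f M m b h.hm (h.hR b hb) (w_lv h.hM.lv hb) 1 (Or.inl rfl)).1 r hr).2.2 k h.hk
  have e : (((1 : ℤ) : ℚ) * (3 * M)) * r + 1 = 3 * M * r + 1 := by
    push_cast
    ring
  rw [e] at h1
  unfold Fb
  rw [h1]

end Pool.Agent.DM.DU
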