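import Pool.Agent.Lib.DU.CV.V2
import Pool.Agent.Lib.DM.CV.V4

/-!
# Theorem DU, part CV, module V3: the permutation of the classes by `pp`, the coefficients of the hidden symmetry (author helper97)
-/

set_option autoImplicit false

open scoped Pointwise nonZeroDivisors

noncomputable section

namespace Pool.Agent.DM.DU

open Pool.Agent.MuZ Pool.Agent.FW NumberField IsDedekindDomain
open Pool.Agent.DI (io ofC io_inj exists_io io_ofC ofC_io VP MP UP TP ex)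
open Pool.Agent.DN

variable {n t : ℕ}

/-! ## Elements of `pp` -/

/-- Elements of `pp`. -/
theorem pp_mp [Ram3 n t] {P : Ideal ZZ} (hT0 : S_T0) (hP : Ab3 P) {v : OO n t} (hv : v ∈ pp n t) :
    VP P (toO v / toO (sD n t)) ∧ MP P (toO v) := by
  have hPp := hP.1.1
  obtain ⟨h1, h0⟩ := sD_mp (n := n) (t := t) hT0 hP
  have h2 := (hT0.2 n t P hP).2.2.1 v
  rw [(zs_zero v).2 hv, Int.cast_zero, sub_zero] at h2
  refine ⟨h2, ?_⟩
  have e : toO v = toO v / toO (sD n t) * toO (sD n t) := (div_mul_cancel₀ _ h0).symm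
  rw [e]
  exact DI.MP.mul_left h2 h1

/-- The number `κ = α'/(ζ - 1)`, for `α` of norm `3 ν`. -/
theorem kap_up [Ram3 n t] {P : Ideal ZZ} (hT0 : S_T0) (hP : Ab3 P) {α : OO n t} (hα : α ∈ pp n t) {ν : ℤ}
    (hN : Nm α = 3 * ν) (hν : ¬ (3 : ℤ) ∣ ν) : UP P (toO (cjO α) / (zet 3 - 1)) := by
  have hPp := hP.1.1
  have hcj : cjO α ∈ pp n t := by
    rw [← zs_zero, zs_cj, zs_zero]
    exact hα
  obtain ⟨h1, -⟩ := pp_mp hT0 hP hα
  obtain ⟨h2, -⟩ := pp_mp hT0 hP hcj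
  obtain ⟨-, h0⟩ := sD_mp (n := n) (t := t) hT0 hP
  have hs := (hT0.2 n t P hP).1
  have hz0 : zet 3 - 1 ≠ 0 := sub_ne_zero.2 zet3_ne1
  obtain ⟨hz, -⟩ := zet3_u hP
  have hνu := w_up hPp hP.2 hν
  have hprod : toO α * toO (cjO α) = 3 * ν := by
    rw [← toO_mul, mul_cjO, toO_int, hN]
    push_cast
    ring
  have e1 : (toO α / toO (sD n t)) * (toO (cjO α) / toO (sD n t)) = ν * (toO (sD n t) ^ 2 / 3)⁻¹ := by
    field_simp
    linear_combination hprod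
  have h3 : UP P ((toO α / toO (sD n t)) * (toO (cjO α) / toO (sD n t))) := by
    rw [e1]
    exact hνu.mul hs.inv
  have hu : UP P (toO (cjO α) / toO (sD n t)) := by
    rw [DI.UP.iff]
    have h4 := h3.ne_zero
    have h5 := left_ne_zero_of_mul h4
    have h6 := right_ne_zero_of_mul h4
    refine ⟨h6, h2, ?_⟩
    have h7 := h1.mul h3.inv.1
    have e2 : ∀ x y : Om, x ≠ 0 → y ≠ 0 → x * (x * y)⁻¹ = y⁻¹ := by
      intro x y hx hy
      field_simp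
    rw [e2 _ _ h5 h6] at h7
    exact h7
  have hz1 := hz.ne_zero
  have hu2 : UP P (toO (sD n t) / (zet 3 - 1)) := by
    refine DI.UP.of_pow (n := 2) (by norm_num) ?_
    have e3 : (toO (sD n t) / (zet 3 - 1)) ^ 2 = -((toO (sD n t) ^ 2 / 3) * (zet 3)⁻¹) := by
      have e4 : (zet 3 - 1) ^ 2 = -3 * zet 3 := by linear_combination zet3_sq
      rw [div_pow, e4]
      field_simp
    rw [e3]
    exact (hs.mul hz.inv).neg
  have e5 : toO (cjO α) / (zet 3 - 1) =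
      (toO (cjO α) / toO (sD n t)) * (toO (sD n t) / (zet 3 - 1)) := by
    field_simp
  rw [e5]
  exact hu.mul hu2

/-! ## Divisibility -/

theorem can_int {f : ℕ} {j : ℤ} (h : IsCoprime (f : ℤ) j) {x : OO n t} (hx : (f : OO n t) ∣ (j : OO n t) * x) :
    (f : OO n t) ∣ x := by
  obtain ⟨p, q, hpq⟩ := h
  have e : x = (f : OO n t) * ((p : OO n t) * x) + (q : OO n t) * ((j : OO n t) * x) := by
    have h1 := congrArg (Int.cast : ℤ → OO n t) hpq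
    push_cast at h1
    linear_combination (-x) * h1
  rw [e]
  exact dvd_add (Dvd.intro _ rfl) (dvd_mul_of_dvd_right hx _)

theorem sp_canc [SqN n t] {v : OO n t} (hv : v ≠ 0) {a b : Ideal (OO n t)} (h : sp v * a = sp v * b) : a = b :=
  mul_left_cancel₀ (show sp v ≠ 0 from CV_sp_ne hv) h

theorem cj_dvd {f : ℕ} {x : OO n t} (h : (f : OO n t) ∣ x) : (f : OO n t) ∣ cjO x := by
  rw [nat_dvd_iff] at h ⊢
  obtain ⟨h1, h2⟩ := h
  refine ⟨?_, ?_⟩
  · change (f : ℤ) ∣ x.re + t * x.im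
    exact dvd_add h1 (dvd_mul_of_dvd_right h2 _)
  · change (f : ℤ) ∣ -x.im
    exact (dvd_neg).2 h2

/-! ## The elements `α` -/

/-- `α` with `(α) = pp b b0'`, `α = N b0` modulo `f`. -/
theorem pp_al [Ram3 n t] {f : ℕ} (hf : 2 ≤ f) {b b0 : Ideal (OO n t)} (hb : FB f b) (hb0 : FB f b0)
    (h : Ray f (pp n t * b) b0) : ∃ α : OO n t, sp α = pp n t * (b * cjI b0) ∧
      (f : OO n t) ∣ α - ((NI b0 : ℕ) : OO n t) ∧ α ∈ pp n t ∧ Nm α = 3 * ((NI b * NI b0 : ℕ) : ℤ) ∧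
      PpR f b b0 α ((NI b0 : ℕ) : OO n t) := by
  obtain ⟨β, β', h1, h2, h3, h4, h5⟩ := V1_ray_one hf h
  have hN0 : b0 * cjI b0 = sp ((NI b0 : ℕ) : OO n t) := ((aO3 n t).2.2.1 b0).2.2
  have h6 : sp β * (pp n t * (b * cjI b0)) = sp (β' * ((NI b0 : ℕ) : OO n t)) := by
    rw [← CV_sp_mul, ← hN0]
    calc sp β * (pp n t * (b * cjI b0)) = (sp β * (pp n t * b)) * cjI b0 := by ring
      _ = (sp β' * b0) * cjI b0 := by rw [h5]
      _ = sp β' * (b0 * cjI b0) := by ring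
  have h7 : β ∣ β' * ((NI b0 : ℕ) : OO n t) := by
    have h8 : sp (β' * ((NI b0 : ℕ) : OO n t)) ≤ sp β := by
      rw [← h6]
      exact Ideal.mul_le_left
    exact Ideal.span_singleton_le_span_singleton.1 h8
  obtain ⟨α, hα⟩ := h7
  have hβ0 := CV_ne_of_cop hf h1
  rw [hα, ← CV_sp_mul] at h6
  have hsp : sp α = pp n t * (b * cjI b0) := (sp_canc hβ0 h6).symm
  have hcon : (f : OO n t) ∣ α - ((NI b0 : ℕ) : OO n t) := by
    have e : α - ((NI b0 : ℕ) : OO n t) = (β' - 1) * ((NI b0 : ℕ) : OO n t) - (β - 1) * α := by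
      linear_combination -hα
    rw [e]
    exact dvd_sub (Dvd.dvd.mul_right h4 _) (Dvd.dvd.mul_right h3 _)
  have hNm : Nm α = 3 * ((NI b * NI b0 : ℕ) : ℤ) := by
    rw [← CV_NI_sp, hsp, CV_NI_mul, CV_NI_mul, NI_pp, ((aO3 n t).2.2.1 b0).2.1]
    push_cast
    ring
  have hNb := CV_NI_ne hb.ne
  have hNb0 := CV_NI_ne hb0.ne
  have hα0 : α ≠ 0 := by
    rintro rfl
    have h8 : Nm (0 : OO n t) = 0 := ((aO2 n t).2.2.1 0).2 rfl
    rw [h8] at hNm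
    have h9 : 0 < ((NI b * NI b0 : ℕ) : ℤ) := by exact_mod_cast Nat.mul_pos hNb hNb0
    omega
  refine ⟨α, hsp, hcon, ?_, hNm, hb, hb0, hα0, ?_, ?_, hcon, ?_⟩
  · have h8 : sp α ≤ pp n t := by
      rw [hsp]
      exact Ideal.mul_le_left
    exact h8 (Ideal.mem_span_singleton_self α)
  · have h8 := CV_int_ne (n := n) (t := t) (j := ((NI b0 : ℕ) : ℤ)) (by exact_mod_cast hNb0.ne')
    push_cast at h8
    exact h8
  · have h8 := CV_cop_int (n := n) (t := t) (N := f) (j := ((NI b0 : ℕ) : ℤ)) (Nat.isCoprime_iff_coprime.2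
      ((CV_NI_cop (by omega)).1 (CV_pri_dvd hb0.prm (Dvd.intro_left _ rfl))))
    push_cast at h8
    exact h8
  · rw [hsp, ← hN0]
    ring

/-- The comparison of two elements `α`. -/
theorem pp_de [Ram3 n t] {f : ℕ} (hf : Fok f) {b b0 b1 b10 : Ideal (OO n t)} (hb : FB f b) (hb0 : FB f b0)
    (hb1 : FB f b1) (hb10 : FB f b10) {α α1 : OO n t} (h1 : sp α = pp n t * (b * cjI b0))
    (h2 : (f : OO n t) ∣ α - ((NI b0 : ℕ) : OO n t)) (h3 : sp α1 = pp n t * (b1 * cjI b10))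
    (h4 : (f : OO n t) ∣ α1 - ((NI b10 : ℕ) : OO n t)) (h5 : Nm α1 = 3 * ((NI b1 * NI b10 : ℕ) : ℤ)) :
    ∃ δ : OO n t, α * cjO α1 = 3 * δ ∧ Cop δ (3 * f) ∧ Cop ((NI b0 * NI b1 : ℕ) : OO n t) (3 * f) ∧
      (f : OO n t) ∣ δ - ((NI b0 * NI b1 : ℕ) : OO n t) ∧
      sp ((NI b0 * NI b1 : ℕ) : OO n t) * (b * b10) = sp δ * (b0 * b1) ∧
      Nm δ = ((NI b * NI b0 * (NI b1 * NI b10) : ℕ) : ℤ) := by
  have hf0 := hf.pos
  obtain ⟨k1, k2, k3, k4, k5, -⟩ := aO3 n t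
  have hcpp : cjI (pp n t) = pp n t := (zO4 n t).2.2.2.1
  have e1 : sp (α * cjO α1) = sp (3 : OO n t) * (b * cjI b0 * (cjI b1 * b10)) := by
    rw [← CV_sp_mul, ← k4, h1, h3, k2, k2, hcpp, (k3 b10).1, ← pp_sq]
    ring
  have h6 : (3 : OO n t) ∣ α * cjO α1 := by
    have h8 : sp (α * cjO α1) ≤ sp (3 : OO n t) := by
      rw [e1]
      exact Ideal.mul_le_left
    exact Ideal.span_singleton_le_span_singleton.1 h8
  obtain ⟨δ, hδ⟩ := h6
  have h30 : (3 : OO n t) ≠ 0 := by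
    have h8 := CV_int_ne (n := n) (t := t) (j := 3) (by norm_num)
    push_cast at h8
    exact h8
  rw [hδ, ← CV_sp_mul] at e1
  have e2 : sp δ = b * cjI b0 * (cjI b1 * b10) := sp_canc h30 e1
  have hc0 : PrI (cjI b0) (3 * f) := (k5 b0 _).2 hb0.prm
  have hc1 : PrI (cjI b1) (3 * f) := (k5 b1 _).2 hb1.prm
  have hco : ∀ {c : Ideal (OO n t)}, FB f c → IsCoprime ((NI c : ℕ) : ℤ) ((3 * f : ℕ) : ℤ) := by
    intro c hc
    exact Nat.isCoprime_iff_coprime.2 ((CV_NI_cop (by omega)).1 hc.prm)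
  have hcf : ∀ {c : Ideal (OO n t)}, FB f c → IsCoprime (f : ℤ) ((NI c : ℕ) : ℤ) := by
    intro c hc
    have h7 := (hco hc).symm
    push_cast at h7
    exact h7.of_isCoprime_of_dvd_left (Dvd.intro_left _ rfl)
  refine ⟨δ, hδ, ?_, ?_, ?_, ?_, ?_⟩
  · rw [← (aO6 n t).2.2.2.1 _ _ (by omega), e2]
    exact CV_pri_mul (CV_pri_mul hb.prm hc0) (CV_pri_mul hc1 hb10.prm)
  · have h7 := CV_cop_int (n := n) (t := t) (N := 3 * f) (j := ((NI b0 * NI b1 : ℕ) : ℤ)) (by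
      rw [Nat.cast_mul]
      exact (hco hb0).mul_left (hco hb1))
    rwa [Int.cast_natCast] at h7
  · -- the congruence
    have h7 : (f : OO n t) ∣ ((NI b10 : ℕ) : OO n t) * (3 * ((NI b1 : ℕ) : OO n t) - ((NI b10 : ℕ) : OO n t)) := by
      have h8 : α1 * cjO α1 = 3 * (((NI b1 : ℕ) : OO n t) * ((NI b10 : ℕ) : OO n t)) := by
        rw [mul_cjO, h5]
        push_cast
        ring
      have h9 := cj_dvd h4
      have e3 : cjO (α1 - ((NI b10 : ℕ) : OO n t)) = cjO α1 - ((NI b10 : ℕ) : OO n t) := by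
        apply ext'
        · simp only [cjO, QuadraticAlgebra.re_sub, QuadraticAlgebra.im_sub, re_nat, im_nat]
          ring
        · simp only [cjO, QuadraticAlgebra.im_sub, im_nat]
          ring
      rw [e3] at h9
      have e4 : ((NI b10 : ℕ) : OO n t) * (3 * ((NI b1 : ℕ) : OO n t) - ((NI b10 : ℕ) : OO n t)) =
          (α1 - ((NI b10 : ℕ) : OO n t)) * cjO α1 +
            ((NI b10 : ℕ) : OO n t) * (cjO α1 - ((NI b10 : ℕ) : OO n t)) := by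
        linear_combination -h8
      rw [e4]
      exact dvd_add (Dvd.dvd.mul_right h4 _) (Dvd.dvd.mul_left h9 _)
    have h8 : (f : OO n t) ∣ 3 * ((NI b1 : ℕ) : OO n t) - ((NI b10 : ℕ) : OO n t) := by
      refine can_int (hcf hb10) ?_
      rwa [Int.cast_natCast]
    have h9 := cj_dvd h4
    have e3 : cjO (α1 - ((NI b10 : ℕ) : OO n t)) = cjO α1 - ((NI b10 : ℕ) : OO n t) := by
      apply ext'
      · simp only [cjO, QuadraticAlgebra.re_sub, QuadraticAlgebra.im_sub, re_nat, im_nat]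
        ring
      · simp only [cjO, QuadraticAlgebra.im_sub, im_nat]
        ring
    rw [e3] at h9
    have h10 : (f : OO n t) ∣ ((3 : ℤ) : OO n t) * (δ - ((NI b0 * NI b1 : ℕ) : OO n t)) := by
      have e4 : ((3 : ℤ) : OO n t) * (δ - ((NI b0 * NI b1 : ℕ) : OO n t)) =
          (α - ((NI b0 : ℕ) : OO n t)) * cjO α1 +
            (((NI b0 : ℕ) : OO n t) * (cjO α1 - ((NI b10 : ℕ) : OO n t)) -
            ((NI b0 : ℕ) : OO n t) * (3 * ((NI b1 : ℕ) : OO n t) - ((NI b10 : ℕ) : OO n t))) := by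
        push_cast
        linear_combination -hδ
      rw [e4]
      exact dvd_add (Dvd.dvd.mul_right h2 _) (dvd_sub (Dvd.dvd.mul_left h9 _) (Dvd.dvd.mul_left h8 _))
    refine can_int ?_ h10
    have := Nat.isCoprime_iff_coprime.2 hf.cop
    exact_mod_cast this
  · rw [e2, Nat.cast_mul, ← CV_sp_mul, ← (k3 b0).2.2, ← (k3 b1).2.2]
    ring
  · rw [← CV_NI_sp, e2, CV_NI_mul, CV_NI_mul, CV_NI_mul, (k3 b0).2.1, (k3 b1).2.1]

/-! ## The type -/

variable [Ram3 n t] {P : Ideal ZZ} {f M k : ℕ} {m : Ideal (OO n t)} {R : Finset (Ideal (OO n t))}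
  {χ : Ideal (OO n t) → Om}

/-- The values of a character of type `1` at elements which are congruent modulo `f`. -/
theorem VH.ty1 (h : VH P f M 2 m R χ) {δ u : OO n t} (hδ : Cop δ (3 * f)) (hu : Cop u (3 * f))
    (hd : (f : OO n t) ∣ δ - u) : MP P (χ (sp δ) * toO u - χ (sp u) * toO δ) := by
  have hPp := h.hP.1.1
  have hf0 := h.hm.pos
  obtain ⟨γ, hγ, h1⟩ := cop_inv hu
  have hc3 : ∀ {v : OO n t}, Cop v (3 * f) → Cop v 3 := fun hv => cop_dvd hv (Dvd.intro _ rfl)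
  have h2 : (f : OO n t) ∣ u * γ - 1 := CV_cast_dvd (Dvd.intro_left _ rfl) h1
  have h3 : (f : OO n t) ∣ δ * γ - 1 := by
    have e : δ * γ - 1 = (δ - u) * γ + (u * γ - 1) := by ring
    rw [e]
    exact dvd_add (Dvd.dvd.mul_right hd _) h2
  have t1 := h.hTy (u * γ) h2 (cop_mul (hc3 hu) (hc3 hγ))
  have t2 := h.hTy (δ * γ) h3 (cop_mul (hc3 hδ) (hc3 hγ))
  have e2 : (2 : ℕ) - 1 = 1 := rfl
  rw [e2, pow_one, ← CV_sp_mul, h.hχ.mul, toO_mul] at t1 t2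
  have hg := v_up h.hχ hPp (w_fb_sp hf0 hγ)
  have hgu := (zs_unit h.T0 h.hP (hc3 hγ)).1
  have hv : ∀ v : OO n t, VP P (toO v) := fun v => toO_VP v
  have h4 := (DI.MP.mul_right t2 ((hv u).mul (hv γ))).sub (DI.MP.mul_right t1 ((hv δ).mul (hv γ)))
  have h5 := hg.mul hgu
  have h50 := h5.ne_zero
  have e : χ (sp δ) * toO u - χ (sp u) * toO δ = (χ (sp γ) * toO γ)⁻¹ *
      ((χ (sp δ) * χ (sp γ) - toO δ * toO γ) * (toO u * toO γ) -
        (χ (sp u) * χ (sp γ) - toO u * toO γ) * (toO δ * toO γ)) := by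
    rw [eq_inv_mul_iff_mul_eq₀ h50]
    ring
  rw [e]
  exact DI.MP.mul_left h5.inv.1 h4

/-- The permutation of the classes by the multiplication with `pp`. -/
theorem VH.pr (h : VH P f M k m R χ) : ∃ π : Ideal (OO n t) → Ideal (OO n t),
    (∀ b ∈ R, π b ∈ R ∧ Ray f (pp n t * b) (π b)) ∧
    ∀ g : Ideal (OO n t) → Om, ∑ b ∈ R, g (π b) = ∑ b ∈ R, g b := by
  classical
  have hf0 := h.hm.pos
  have hp0 : pp n t ≠ ⊥ := pp_ne
  have hpf : PrI (pp n t) f := by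
    rw [CV_NI_cop hf0, NI_pp]
    exact h.hm.cop.symm
  obtain ⟨h71, h72, h73, h74, h75, -⟩ := aO7 n t f hf0
  have hex : ∀ b : Ideal (OO n t), ∃ b' : Ideal (OO n t), b ∈ R → b' ∈ R ∧ Ray f (pp n t * b) b' := by
    intro b
    by_cases hb : b ∈ R
    · have hF := h.hR b hb
      obtain ⟨b', hb', h2⟩ := h.hRC.ex (pp n t * b) (mul_ne_zero hp0 hF.ne)
        (CV_pri_mul hpf (CV_pri_dvd hF.prm (Dvd.intro_left _ rfl)))
      exact ⟨b', fun _ => ⟨hb', h2⟩⟩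
    · exact ⟨⊤, fun h1 => absurd h1 hb⟩
  choose π hπ using hex
  have hmaps : Set.MapsTo π (R : Set (Ideal (OO n t))) R := fun b hb => (hπ b hb).1
  have hinj : Set.InjOn π (R : Set (Ideal (OO n t))) := by
    intro b hb b' hb' hbb
    have h1 := (hπ b hb).2
    have h2 := (hπ b' hb').2
    rw [← hbb] at h2
    have h3 := h73 _ _ _ h1 (h72 _ _ h2)
    refine h.hRC.uni b hb b' hb' (h75 b b' (pp n t) hp0 hpf ?_)
    rw [mul_comm b, mul_comm b']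
    exact h3
  have hsurj : Set.SurjOn π (R : Set (Ideal (OO n t))) R :=
    Finset.surjOn_of_injOn_of_card_le π hmaps hinj le_rfl
  exact ⟨π, hπ, fun g => Finset.sum_nbij π hmaps hinj hsurj fun b _ => rfl⟩

omit [Ram3 n t] in
theorem oN_N [SqN n t] {P : Ideal ZZ} (hP : Ab3 P) {f : ℕ} {b : Ideal (OO n t)} (hb : FB f b) :
    VP P (oN b) ∧ MP P (oN b - (NI b : Om)) := by
  have hPp := hP.1.1
  have hc : (NI b).Coprime 3 := by
    have h1 : PrI b 3 := CV_pri_dvd hb.prm (Dvd.intro _ rfl)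
    exact (CV_NI_cop (by norm_num)).1 h1
  have h3 := w_cop3.1 hc
  unfold oN
  split_ifs with h1 h2
  · refine ⟨DI.VP.one, ?_⟩
    have h4 := w_mp hPp hP.2 (j := 1 - (NI b : ℤ)) (by omega)
    push_cast at h4
    exact h4
  · refine ⟨DI.VP.one.neg, ?_⟩
    have h4 := w_mp hPp hP.2 (j := -1 - (NI b : ℤ)) (by omega)
    push_cast at h4
    exact h4
  · omega

/-- **The coefficients of the hidden symmetry.** -/
theorem VH.co (h : VH P f M 2 m R χ) {b b0 b1 b10 : Ideal (OO n t)} (hb : FB f b) (hb0 : FB f b0)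
    (hb1 : FB f b1) (hb10 : FB f b10) {α α1 : OO n t} (h1 : sp α = pp n t * (b * cjI b0))
    (h2 : (f : OO n t) ∣ α - ((NI b0 : ℕ) : OO n t)) (h3 : sp α1 = pp n t * (b1 * cjI b10))
    (h4 : (f : OO n t) ∣ α1 - ((NI b10 : ℕ) : OO n t)) (h5 : Nm α1 = 3 * ((NI b1 * NI b10 : ℕ) : ℤ))
    (h6 : α1 ∈ pp n t) :
    VP P (toO α * (zet 3 - 1) / (3 * ((NI b0 : ℕ) : Om))) ∧
    VP P (χ b1 * (χ b10)⁻¹ * (toO (cjO α1) / (zet 3 - 1))⁻¹ * ((NI b10 : ℕ) : Om)) ∧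
    MP P (χ b * (toO α * (zet 3 - 1) / (3 * ((NI b0 : ℕ) : Om))) * ((NI b : ℕ) : Om) -
      χ b1 * (χ b10)⁻¹ * (toO (cjO α1) / (zet 3 - 1))⁻¹ * ((NI b10 : ℕ) : Om) * (χ b0 * oN b0)) := by
  have hPp := h.hP.1.1
  have hf0 := h.hm.pos
  obtain ⟨δ, hδ, c1, c2, c3', c4, c5⟩ := pp_de h.hm.toFok hb hb0 hb1 hb10 h1 h2 h3 h4 h5
  have hc3 : ∀ {v : OO n t}, Cop v (3 * f) → Cop v 3 := fun hv => cop_dvd hv (Dvd.intro _ rfl)
  have hN3 : ∀ {c : Ideal (OO n t)}, FB f c → ¬ (3 : ℤ) ∣ ((NI c : ℕ) : ℤ) := by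
    intro c hc
    have h1 : PrI c 3 := CV_pri_dvd hc.prm (Dvd.intro _ rfl)
    exact w_cop3.1 ((CV_NI_cop (by norm_num)).1 h1)
  have hNu : ∀ {c : Ideal (OO n t)}, FB f c → UP P ((NI c : ℕ) : Om) := by
    intro c hc
    have h7 := w_up hPp h.hP.2 (hN3 hc)
    rwa [Int.cast_natCast] at h7
  have hν : ¬ (3 : ℤ) ∣ ((NI b1 * NI b10 : ℕ) : ℤ) := by
    rw [Nat.cast_mul]
    intro h7
    rcases Int.prime_three.dvd_or_dvd h7 with h8 | h8
    · exact hN3 hb1 h8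
    · exact hN3 hb10 h8
  have hκ := kap_up h.T0 h.hP h6 h5 hν
  obtain ⟨κ, hκe⟩ : ∃ κ : Om, κ = toO (cjO α1) / (zet 3 - 1) := ⟨_, rfl⟩
  rw [← hκe] at hκ ⊢
  have hz0 : zet 3 - 1 ≠ 0 := sub_ne_zero.2 zet3_ne1
  have hκ0 := hκ.ne_zero
  have hNu0 := (hNu hb0).ne_zero
  have hδu := zs_unit h.T0 h.hP (hc3 c1)
  -- `θ`
  have hθ : toO α * (zet 3 - 1) / (3 * ((NI b0 : ℕ) : Om)) = toO δ * κ⁻¹ * ((NI b0 : ℕ) : Om)⁻¹ := by
    have e1 : toO α * toO (cjO α1) = 3 * toO δ := by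
      rw [← toO_mul, hδ, toO_mul]
      have e3 : toO (3 : OO n t) = 3 := by
        have e4 := toO_nat (n := n) (t := t) 3
        push_cast at e4
        exact e4
      rw [e3]
    have e2 : toO (cjO α1) = κ * (zet 3 - 1) := by
      rw [hκe, div_mul_cancel₀ _ hz0]
    rw [e2] at e1
    field_simp
    linear_combination e1
  have hθv : VP P (toO α * (zet 3 - 1) / (3 * ((NI b0 : ℕ) : Om))) := by
    rw [hθ]
    exact (hδu.1.1.mul hκ.inv.1).mul (hNu hb0).inv.1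
  have hX := fun {c : Ideal (OO n t)} (hc : FB f c) => v_up h.hχ hPp hc
  have hl : VP P (χ b1 * (χ b10)⁻¹ * κ⁻¹ * ((NI b10 : ℕ) : Om)) :=
    (((hX hb1).1.mul (hX hb10).inv.1).mul hκ.inv.1).mul (hNu hb10).1
  refine ⟨hθv, hl, ?_⟩
  -- in the residue ring
  have hoN := oN_N h.hP hb0
  have hu := v_up h.hχ hPp (w_fb_sp hf0 c2)
  have hd := v_up h.hχ hPp (w_fb_sp hf0 c1)
  refine (rs_eq (((hX hb).1.mul hθv).mul (hNu hb).1) (hl.mul ((hX hb0).1.mul hoN.1))).1 ?_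
  rw [hθ]
  rw [rs_mul ((hX hb).1.mul ((hδu.1.1.mul hκ.inv.1).mul (hNu hb0).inv.1)) (hNu hb).1,
    rs_mul (hX hb).1 ((hδu.1.1.mul hκ.inv.1).mul (hNu hb0).inv.1),
    rs_mul (hδu.1.1.mul hκ.inv.1) (hNu hb0).inv.1, rs_mul hδu.1.1 hκ.inv.1,
    rs_mul hl ((hX hb0).1.mul hoN.1), rs_mul (hX hb0).1 hoN.1,
    rs_mul (((hX hb1).1.mul (hX hb10).inv.1).mul hκ.inv.1) (hNu hb10).1,
    rs_mul ((hX hb1).1.mul (hX hb10).inv.1) hκ.inv.1, rs_mul (hX hb1).1 (hX hb10).inv.1]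
  have i1 : rs P (oN b0) = ((NI b0 : ℕ) : RF P) := by
    rw [← rs_nat]
    exact (rs_eq hoN.1 (hNu hb0).1).2 hoN.2
  have i2 : rs P ((NI b0 : ℕ) : Om)⁻¹ * ((NI b0 : ℕ) : RF P) = 1 := by
    rw [← rs_nat, ← rs_mul (hNu hb0).inv.1 (hNu hb0).1, inv_mul_cancel₀ hNu0, rs_one]
  have i3 : rs P (χ b10)⁻¹ * rs P (χ b10) = 1 := by
    rw [← rs_mul (hX hb10).inv.1 (hX hb10).1, inv_mul_cancel₀ (hX hb10).ne_zero, rs_one]
  have i4 : rs P (toO δ) * rs P (toO δ) = 1 := by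
    rw [← rs_mul hδu.1.1 hδu.1.1, ← rs_one, rs_eq (hδu.1.1.mul hδu.1.1) DI.VP.one, ← sq]
    exact hδu.2.2.2
  have i5 : rs P (χ (sp δ)) * (((NI b0 : ℕ) : RF P) * ((NI b1 : ℕ) : RF P)) =
      rs P (χ (sp ((NI b0 * NI b1 : ℕ) : OO n t))) * rs P (toO δ) := by
    have h7 := h.ty1 c1 c2 c3'
    rw [toO_nat] at h7
    have h8 := (rs_eq (hd.1.mul (DI.VP.nat (NI b0 * NI b1))) (hu.1.mul hδu.1.1)).2 h7
    rw [rs_mul hd.1 (DI.VP.nat _), rs_mul hu.1 hδu.1.1, rs_nat, Nat.cast_mul] at h8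
    exact h8
  have i6 : rs P (χ (sp ((NI b0 * NI b1 : ℕ) : OO n t))) * (rs P (χ b) * rs P (χ b10)) =
      rs P (χ (sp δ)) * (rs P (χ b0) * rs P (χ b1)) := by
    have h7 := congrArg χ c4
    rw [h.hχ.mul, h.hχ.mul, h.hχ.mul, h.hχ.mul] at h7
    have h8 := congrArg (rs P) h7
    rwa [rs_mul hu.1 ((hX hb).1.mul (hX hb10).1), rs_mul (hX hb).1 (hX hb10).1,
      rs_mul hd.1 ((hX hb0).1.mul (hX hb1).1), rs_mul (hX hb0).1 (hX hb1).1] at h8
  have i7 : ∃ y : RF P, y * rs P (χ (sp ((NI b0 * NI b1 : ℕ) : OO n t))) = 1 := by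
    refine ⟨rs P (χ (sp ((NI b0 * NI b1 : ℕ) : OO n t)))⁻¹, ?_⟩
    rw [← rs_mul hu.inv.1 hu.1, inv_mul_cancel₀ hu.ne_zero, rs_one]
  have i8 : ((NI b : ℕ) : RF P) * ((NI b0 : ℕ) : RF P) * (((NI b1 : ℕ) : RF P) * ((NI b10 : ℕ) : RF P)) = 1 := by
    have h7 := Nm3 (hc3 c1)
    rw [c5] at h7
    have h8 := rs_mp (w_mp hPp h.hP.2 h7)
    rw [rs_int] at h8
    push_cast at h8
    linear_combination h8
  have q : ∀ {c : Ideal (OO n t)}, FB f c → ((NI c : ℕ) : RF P) * ((NI c : ℕ) : RF P) = 1 := by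
    intro c hc
    have h7 := rs_sq (P := P) h.hP.2 (hN3 hc)
    rwa [Int.cast_natCast] at h7
  have q0 := q hb0
  have q1 := q hb1
  have q2 := q hb10
  have q3 := q hb
  rw [i1, rs_nat, rs_nat]
  obtain ⟨y, hy⟩ := i7
  generalize rs P ((NI b0 : ℕ) : Om)⁻¹ = ni at *
  generalize rs P (χ (sp ((NI b0 * NI b1 : ℕ) : OO n t))) = U at *
  generalize rs P (χ (sp δ)) = D at *
  generalize rs P (χ b10)⁻¹ = X10i at *
  generalize rs P (χ b10) = X10 at *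
  generalize rs P (χ b1) = X1 at *
  generalize rs P (χ b0) = X0 at *
  generalize rs P (χ b) = X at *
  generalize rs P (toO δ) = d at *
  generalize rs P κ⁻¹ = K at *
  generalize ((NI b : ℕ) : RF P) = nb at *
  generalize ((NI b0 : ℕ) : RF P) = n0 at *
  generalize ((NI b1 : ℕ) : RF P) = n1 at *
  generalize ((NI b10 : ℕ) : RF P) = n10 at *
  have j1 : D = U * d * n0 * n1 := by
    calc D = D * (n0 * n1) * (n0 * n1) := by linear_combination (-D * (n1 * n1)) * q0 - D * q1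
      _ = U * d * n0 * n1 := by rw [i5]; ring
  have j2 : X = d * n0 * n1 * X0 * X1 * X10i := by
    calc X = (y * U) * X * (X10i * X10) := by rw [hy, i3]; ring
      _ = y * X10i * (U * (X * X10)) := by ring
      _ = y * X10i * (D * (X0 * X1)) := by rw [i6]
      _ = (y * U) * (d * n0 * n1 * X0 * X1 * X10i) := by rw [j1]; ring
      _ = d * n0 * n1 * X0 * X1 * X10i := by rw [hy, one_mul]
  have j3 : ni = n0 := by
    calc ni = ni * n0 * n0 := by linear_combination (-ni) * q0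
      _ = n0 := by rw [i2, one_mul]
  have j4 : nb * n1 = n0 * n10 := by
    calc nb * n1 = nb * n1 * (n0 * n0) * (n10 * n10) := by rw [q0, q2]; ring
      _ = (nb * n0 * (n1 * n10)) * (n0 * n10) := by ring
      _ = n0 * n10 := by rw [i8, one_mul]
  rw [j2, j3]
  calc d * n0 * n1 * X0 * X1 * X10i * (d * K * n0) * nb = (d * d) * (n0 * n0) * (nb * n1) * X0 * X1 * X10i * K := by
        ring
    _ = X1 * X10i * K * n10 * (X0 * n0) := by rw [i4, q0, j4]; ring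

end Pool.Agent.DM.DU
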